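import Pool.Agent.H104.AKN.LP

/-!
# Certificates for weighted bounds
-/

namespace Pool.Agent.H104.AKN

open Finset

/-- the data of a certificate -/
structure Cert where
  n : ℕ
  A : ℕ
  B : ℕ
  W0 : ℕ
  W1 : ℤ
  W2 : ℕ
  d : ℕ
  D : ℕ
  Kn : ℕ
  Kd : ℕ
  terms : List (P1 × List (ℕ × P1))
  N : ℕ
  blocks : List Block
  N' : ℕ
  dblocks : List Block

/-- the polynomial describing the region -/
def g0 (A B : ℕ) : P3 :=
  [[[(A : ℤ) ^ 2, -2 * (A : ℤ) ^ 2], [-((A : ℤ) * B)]], [[-((A : ℤ) * B)], [-((B : ℤ) ^ 2)]]]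

def g1 : P3 := [[[1, 1]]]
def g2 : P3 := [[[1]], [], [[-1]]]
def g3 : P3 := [[[1], [], [-1]]]

def emb (p : P1) : P3 := p.map (fun a => [[a]])

lemma ev3_emb (v w t : ℝ) : ∀ p : P1, ev3 v w t (emb p) = ev1 v p
  | [] => rfl
  | a :: p => by
    have ih := ev3_emb v w t p
    simp only [emb, ev3] at ih
    simp only [emb, List.map_cons, ev3, lev, ih]
    rw [ev1_cons]
    simp [ev2, ev1, ev0, lev]

lemma ev3_g0 (A B : ℕ) (v w t : ℝ) :
    ev3 v w t (g0 A B) = 2 * (A : ℝ) ^ 2 * (1 - t) - (A + B * v) * (A + B * w) := by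
  simp only [g0, ev3, ev2, ev1, ev0, lev]
  push_cast
  ring

lemma ev3_g1 (v w t : ℝ) : ev3 v w t g1 = 1 + t := by
  simp [g1, ev3, ev2, ev1, ev0, lev]

lemma ev3_g2 (v w t : ℝ) : ev3 v w t g2 = 1 - v ^ 2 := by
  simp [g2, ev3, ev2, ev1, ev0, lev]; ring

lemma ev3_g3 (v w t : ℝ) : ev3 v w t g3 = 1 - w ^ 2 := by
  simp [g3, ev3, ev2, ev1, ev0, lev]; ring

/-- the weight polynomial -/
def Cert.W (c : Cert) : P1 := [(c.W0 : ℤ), c.W1, (c.W2 : ℤ)]

def Cert.negZ (c : Cert) : P3 :=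
  smul3 (-1) (add3 (smul3 (c.d : ℤ) (tens c.W [1])) (kpoly c.terms))

def Cert.diag (c : Cert) : P3 :=
  emb (add1 (smul1 (c.D : ℤ) c.W)
    (smul1 (-1) (add1 (smul1 (c.d : ℤ) (mul1 c.W c.W)) (kdiag c.terms))))

/-- simple conditions -/
def Cert.ok0 (c : Cert) : Bool :=
  decide (0 < c.B) && decide (c.B < c.A) && decide (0 < c.W0) && decide (0 < c.d) &&
  decide (0 < c.D) && decide ((c.W0 : ℤ) ≤ c.W1 + c.W2) && decide (0 < c.N) &&
  decide (0 < c.N') && decide (0 < c.Kd) && decide (c.D * c.Kd ≤ c.Kn * c.W0 * c.d) &&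
  c.terms.all (fun q => isGeg c.n q.1)

/-- the identity for the kernel -/
def Cert.ok1 (c : Cert) : Bool :=
  eqv3 (smul3 (c.N : ℤ) c.negZ) (sumBlocks [g0 c.A c.B, g1, g2, g3] c.blocks)

/-- the identity for the diagonal -/
def Cert.ok2 (c : Cert) : Bool :=
  eqv3 (smul3 (c.N' : ℤ) c.diag) (sumBlocks [g2] c.dblocks)

lemma ev1_W (c : Cert) (v : ℝ) : ev1 v c.W = c.W0 + c.W1 * v + c.W2 * v ^ 2 := by
  simp only [Cert.W, ev1, ev0, lev]
  push_cast
  ring

/-- the weight of a direction -/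
noncomputable def Cert.om (c : Cert) (s : ℝ) : ℝ :=
  if 2 * c.A * s < c.A - c.B then 0 else
    ev1 (min 1 ((2 * c.A * s - c.A) / c.B)) c.W / c.W0

section

variable (c : Cert) (h0 : c.ok0 = true) (h1 : c.ok1 = true) (h1' : checkBlocks c.blocks = true)
  (h2 : c.ok2 = true) (h2' : checkBlocks c.dblocks = true)

include h1 h1' h0 in
lemma Cert.neg (v w t : ℝ) (hv : -1 ≤ v) (hv' : v ≤ 1) (hw : -1 ≤ w) (hw' : w ≤ 1)
    (ht : -1 ≤ t) (ht' : 0 ≤ 2 * (c.A : ℝ) ^ 2 * (1 - t) - (c.A + c.B * v) * (c.A + c.B * w)) :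
    (c.d : ℝ) * (ev1 v c.W * ev1 w c.W) + ev3 v w t (kpoly c.terms) ≤ 0 := by
  simp only [Cert.ok0, Bool.and_eq_true, decide_eq_true_eq] at h0
  have hN : 0 < c.N := h0.1.1.1.1.2
  have h := cert_sound [g0 c.A c.B, g1, g2, g3] c.blocks c.N c.negZ hN h1' h1 v w t (by
    intro g hg
    simp only [List.mem_cons, List.not_mem_nil, or_false] at hg
    rcases hg with rfl | rfl | rfl | rfl
    · rw [ev3_g0]; exact ht'
    · rw [ev3_g1]; linarith
    · rw [ev3_g2]; nlinarith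
    · rw [ev3_g3]; nlinarith)
  rw [Cert.negZ, ev3_smul, ev3_add, ev3_smul, ev3_tens] at h
  have e : ev1 t [1] = 1 := by simp [ev1, ev0, lev]
  rw [e] at h
  push_cast at h
  linarith

include h2 h2' h0 in
lemma Cert.dg (v : ℝ) (hv : -1 ≤ v) (hv' : v ≤ 1) :
    (c.d : ℝ) * (ev1 v c.W * ev1 v c.W) + ev1 v (kdiag c.terms) ≤ c.D * ev1 v c.W := by
  simp only [Cert.ok0, Bool.and_eq_true, decide_eq_true_eq] at h0
  have hN : 0 < c.N' := h0.1.1.1.2
  have h := cert_sound [g2] c.dblocks c.N' c.diag hN h2' h2 v 0 0 (by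
    intro g hg
    simp only [List.mem_cons, List.not_mem_nil, or_false] at hg
    rcases hg with rfl
    rw [ev3_g2]; nlinarith)
  rw [Cert.diag, ev3_emb, ev1_add, ev1_smul, ev1_smul, ev1_add, ev1_smul, ev1_mul] at h
  push_cast at h
  linarith

include h0 in
lemma kdiag_nonneg (v : ℝ) : 0 ≤ ev1 v (kdiag c.terms) ∨ c.n = 0 := by
  by_cases hn : c.n = 0
  · exact Or.inr hn
  left
  simp only [Cert.ok0, Bool.and_eq_true, decide_eq_true_eq] at h0
  have h3 := kpoly_psd c.n (Finset.univ : Finset Unit)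
    (fun _ => fun t => if t = (⟨0, by omega⟩ : Fin c.n) then 1 else 0)
    (by intro i _; simp) (fun _ => v) c.terms h0.2
  simp only [Finset.univ_unique, Finset.sum_singleton] at h3
  simp at h3
  rw [← ev3_kdiag]
  exact h3

include h0 h2 h2' in
lemma Cert.W_nonneg (hn : c.n ≠ 0) (v : ℝ) (hv : -1 ≤ v) (hv' : v ≤ 1) : 0 ≤ ev1 v c.W := by
  have h3 := c.dg h0 h2 h2' v hv hv'
  have h4 := (kdiag_nonneg c h0 v).resolve_right hn
  simp only [Cert.ok0, Bool.and_eq_true, decide_eq_true_eq] at h0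
  have hd : (0 : ℝ) < c.d := by exact_mod_cast h0.1.1.1.1.1.1.1.2
  have hD : (0 : ℝ) < c.D := by exact_mod_cast h0.1.1.1.1.1.1.2
  nlinarith [mul_nonneg hd.le (mul_self_nonneg (ev1 v c.W))]

include h0 in
lemma Cert.om_add (hW : ∀ v : ℝ, -1 ≤ v → v ≤ 1 → 0 ≤ ev1 v c.W) (s : ℝ) :
    2 ≤ c.om s + c.om (1 - s) := by
  simp only [Cert.ok0, Bool.and_eq_true, decide_eq_true_eq] at h0
  have hB : (0 : ℝ) < c.B := by exact_mod_cast h0.1.1.1.1.1.1.1.1.1.1
  have hW0 : (0 : ℝ) < c.W0 := by exact_mod_cast h0.1.1.1.1.1.1.1.1.2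
  have hW1 : (c.W0 : ℝ) ≤ c.W1 + c.W2 := by exact_mod_cast h0.1.1.1.1.1.2
  have hom : ∀ s : ℝ, 0 ≤ c.om s := by
    intro s
    unfold Cert.om
    split_ifs with h
    · exact le_refl 0
    · apply div_nonneg _ hW0.le
      apply hW
      · rw [le_min_iff]
        refine ⟨by norm_num, ?_⟩
        rw [le_div_iff₀ hB]
        linarith
      · exact min_le_left _ _
  have one : ∀ s : ℝ, 2 * c.A * s < c.A - c.B → 2 ≤ c.om (1 - s) := by
    intro s hs
    unfold Cert.om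
    rw [if_neg (by push Not; linarith), min_eq_left (by rw [le_div_iff₀ hB]; linarith), ev1_W,
      le_div_iff₀ hW0]
    linarith
  by_cases ha : 2 * c.A * s < c.A - c.B
  · linarith [one s ha, hom s]
  by_cases hb : 2 * c.A * (1 - s) < c.A - c.B
  · have := one (1 - s) hb
    rw [sub_sub_cancel] at this
    linarith [hom (1 - s)]
  push Not at ha hb
  unfold Cert.om
  rw [if_neg (by push Not; linarith), if_neg (by push Not; linarith),
    min_eq_right (by rw [div_le_iff₀ hB]; linarith),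
    min_eq_right (by rw [div_le_iff₀ hB]; linarith), ← add_div, le_div_iff₀ hW0, ev1_W, ev1_W]
  have e : (2 * c.A * (1 - s) - c.A) / (c.B : ℝ) = - ((2 * c.A * s - c.A) / c.B) := by
    field_simp; ring
  rw [e]
  have h2 : (0 : ℝ) ≤ c.W2 := by positivity
  nlinarith [mul_nonneg h2 (sq_nonneg ((2 * c.A * s - c.A) / (c.B : ℝ)))]

include h0 h1 h1' h2 h2' in
/-- **the weighted bound** -/
theorem Cert.bound (hn : c.n ≠ 0) {ι : Type} (s : Finset ι) (x : ι → Fin c.n → ℝ)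
    (hx : ∀ i ∈ s, ∑ t, x i t * x i t = 1) (σ : ι → ℝ)
    (hxy : ∀ i ∈ s, ∀ j ∈ s, i ≠ j → ∑ t, x i t * x j t ≤ 1 - 2 * (σ i * σ j)) :
    ∑ i ∈ s, c.om (σ i) ≤ (c.Kn : ℝ) / c.Kd := by
  classical
  have hWn := c.W_nonneg h0 h2 h2' hn
  have hneg := c.neg h0 h1 h1'
  have hdg := c.dg h0 h2 h2'
  simp only [Cert.ok0, Bool.and_eq_true, decide_eq_true_eq] at h0
  have hB : (0 : ℝ) < c.B := by exact_mod_cast h0.1.1.1.1.1.1.1.1.1.1
  have hBA : (c.B : ℝ) < c.A := by exact_mod_cast h0.1.1.1.1.1.1.1.1.1.2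
  have hW0 : (0 : ℝ) < c.W0 := by exact_mod_cast h0.1.1.1.1.1.1.1.1.2
  have hd : (0 : ℝ) < c.d := by exact_mod_cast h0.1.1.1.1.1.1.1.2
  have hKd : (0 : ℝ) < c.Kd := by exact_mod_cast h0.1.1.2
  have hK : (c.D : ℝ) * c.Kd ≤ c.Kn * c.W0 * c.d := by exact_mod_cast h0.1.2
  have hKn : (0 : ℝ) ≤ c.Kn := by positivity
  set v : ι → ℝ := fun i => min 1 ((2 * c.A * σ i - c.A) / c.B) with hv
  set s' := s.filter (fun i => ¬ (2 * c.A * σ i < c.A - c.B)) with hs'
  have e1 : ∑ i ∈ s, c.om (σ i) = (∑ i ∈ s', ev1 (v i) c.W) / c.W0 := by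
    rw [hs', Finset.sum_filter, Finset.sum_div]
    apply Finset.sum_congr rfl
    intro i _
    simp only [Cert.om, hv]
    split_ifs with h
    · simp
    · rfl
  rw [e1]
  have hm : ∀ i ∈ s', i ∈ s ∧ (c.A : ℝ) - c.B ≤ 2 * c.A * σ i := by
    intro i hi
    rw [hs', Finset.mem_filter] at hi
    exact ⟨hi.1, not_lt.mp hi.2⟩
  have hv1 : ∀ i ∈ s', v i ≤ 1 := fun i _ => min_le_left _ _
  have hv2 : ∀ i ∈ s', -1 ≤ v i := by
    intro i hi
    rw [hv]
    simp only [le_min_iff]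
    refine ⟨by norm_num, ?_⟩
    rw [le_div_iff₀ hB]
    linarith [(hm i hi).2]
  have hv3 : ∀ i ∈ s', (c.A : ℝ) + c.B * v i ≤ 2 * c.A * σ i := by
    intro i _
    have : v i ≤ (2 * c.A * σ i - c.A) / c.B := min_le_right _ _
    rw [le_div_iff₀ hB] at this
    linarith
  have hv4 : ∀ i ∈ s', 0 < (c.A : ℝ) + c.B * v i := by
    intro i hi
    nlinarith [hv2 i hi]
  by_cases hS : 0 < ∑ i ∈ s', ev1 (v i) c.W
  · have h5 := lp_main c.n c.W c.d c.D c.terms h0.2 s' x (fun i hi => hx i (hm i hi).1) v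
      (by
        intro i hi j hj hij
        apply hneg _ _ _ (hv2 i hi) (hv1 i hi) (hv2 j hj) (hv1 j hj)
        · have h6 : 0 ≤ ∑ t, (x i t + x j t) * (x i t + x j t) :=
            Finset.sum_nonneg fun t _ => mul_self_nonneg _
          have h7 : ∑ t, (x i t + x j t) * (x i t + x j t) =
              ∑ t, x i t * x i t + ∑ t, x j t * x j t + 2 * ∑ t, x i t * x j t := by
            rw [Finset.mul_sum, ← Finset.sum_add_distrib, ← Finset.sum_add_distrib]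
            apply Finset.sum_congr rfl
            intro t _
            ring
          rw [h7, hx i (hm i hi).1, hx j (hm j hj).1] at h6
          linarith
        · have h6 := hxy i (hm i hi).1 j (hm j hj).1 hij
          have h8 : (c.A + c.B * v i) * (c.A + c.B * v j) ≤
              (2 * c.A * σ i) * (2 * c.A * σ j) :=
            mul_le_mul (hv3 i hi) (hv3 j hj) (hv4 j hj).le (le_trans (hv4 i hi).le (hv3 i hi))
          nlinarith [mul_nonneg (mul_self_nonneg (c.A : ℝ)) (sub_nonneg.mpr h6)])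
      (fun i hi => hdg _ (hv2 i hi) (hv1 i hi)) hS
    rw [div_le_div_iff₀ hW0 hKd]
    have h9 : (c.d : ℝ) * ((∑ i ∈ s', ev1 (v i) c.W) * c.Kd) ≤ c.d * (c.Kn * c.W0) := by
      calc (c.d : ℝ) * ((∑ i ∈ s', ev1 (v i) c.W) * c.Kd)
          = (c.d * ∑ i ∈ s', ev1 (v i) c.W) * c.Kd := by ring
        _ ≤ c.D * c.Kd := mul_le_mul_of_nonneg_right h5 hKd.le
        _ ≤ c.Kn * c.W0 * c.d := hK
        _ = c.d * (c.Kn * c.W0) := by ring
    exact le_of_mul_le_mul_left h9 hd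
  · push Not at hS
    have h10 : (∑ i ∈ s', ev1 (v i) c.W) / c.W0 ≤ 0 := div_nonpos_of_nonpos_of_nonneg hS hW0.le
    have h11 : 0 ≤ (c.Kn : ℝ) / c.Kd := by positivity
    linarith

end

end Pool.Agent.H104.AKN
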