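import Mathlib

/-!
# Packings of balls of different radii, average kissing numbers and kissing numbers
-/

namespace Pool.Agent.H104.AKN

open Metric

/-- A packing in `ℝ^d`: a finite, nonempty family of closed Euclidean balls of positive, possibly
different, radii whose interiors are pairwise disjoint. -/
structure Packing (d : ℕ) where
  /-- number of balls -/
  N : ℕ
  one_le : 1 ≤ N
  /-- the centers -/
  center : Fin N → EuclideanSpace ℝ (Fin d)
  /-- the radii -/
  radius : Fin N → ℝ
  radius_pos : ∀ i, 0 < radius i
  disjoint_interiors : ∀ i j, i ≠ j →
    Disjoint (interior (closedBall (center i) (radius i)))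
      (interior (closedBall (center j) (radius j)))

/-- The contact graph of a packing: two different balls are adjacent when they are tangent, that is,
when the distance of their centers is the sum of their radii. -/
def Packing.contactGraph {d : ℕ} (P : Packing d) : SimpleGraph (Fin P.N) where
  Adj i j := i ≠ j ∧ dist (P.center i) (P.center j) = P.radius i + P.radius j
  symm := ⟨fun i j h => ⟨h.1.symm, by rw [dist_comm, h.2, add_comm]⟩⟩
  loopless := ⟨fun _ h => h.1 rfl⟩

/-- The average kissing number `2 E / N` of a packing. -/
noncomputable def Packing.avg {d : ℕ} (P : Packing d) : ℝ :=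
  2 * (P.contactGraph.edgeSet.ncard : ℝ) / (P.N : ℝ)

/-- `κ(d)`: the supremum of the average kissing numbers of all packings in `ℝ^d`. -/
noncomputable def kappa (d : ℕ) : ℝ := sSup (Set.range fun P : Packing d => P.avg)

/-- A kissing configuration: the centers of unit balls with pairwise disjoint interiors which all
touch the unit ball around the origin. -/
def IsKissing (d : ℕ) (X : Finset (EuclideanSpace ℝ (Fin d))) : Prop :=
  (∀ x ∈ X, dist x 0 = 1 + 1) ∧
    ∀ x ∈ X, ∀ y ∈ X, x ≠ y → Disjoint (interior (closedBall x 1)) (interior (closedBall y 1))

/-- `τ(d)`: the kissing number, the largest size of a kissing configuration in `ℝ^d`. -/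
noncomputable def tau (d : ℕ) : ℕ :=
  sSup {m : ℕ | ∃ X : Finset (EuclideanSpace ℝ (Fin d)), IsKissing d X ∧ X.card = m}

end Pool.Agent.H104.AKN
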