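import Mathlib

/-!
# The root system of the lattice `E8`
-/

namespace Pool.Agent.H104.AKN.E8

/-- sign vectors -/
def signs : ℕ → List (List ℤ)
  | 0 => [[]]
  | n + 1 => (signs n).flatMap (fun l => [1 :: l, -1 :: l])

/-- the 240 minimal vectors of the scaled lattice `2 E8`, as lists of integers -/
def rootList : List (List ℤ) :=
  (List.range 8).flatMap (fun i => (List.range 8).flatMap (fun j =>
    if i < j then [((2 : ℤ), (2 : ℤ)), (2, -2), (-2, 2), (-2, -2)].map (fun s =>
      (List.range 8).map (fun k => if k == i then s.1 else if k == j then s.2 else 0)) else [])) ++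
  (signs 8).filter (fun l => l.sum % 4 == 0)

def goodRoot (l : List ℤ) : Bool :=
  l.length == 8 && l.all (fun a => decide (-2 ≤ a) && decide (a ≤ 2)) &&
  (l.all (fun a => a % 2 == 0) || l.all (fun a => a % 2 == 1)) && l.sum % 4 == 0 &&
  (l.map (fun a => a * a)).sum == 8

lemma rootList_good : rootList.all goodRoot = true := by decide +kernel

lemma rootList_length : rootList.length = 240 := by decide +kernel

lemma rootList_nodup : rootList.Nodup := by decide +kernel

/-- membership in the scaled lattice `2 E8` -/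
def inL (x : Fin 8 → ℤ) : Prop :=
  ((∀ i, x i % 2 = 0) ∨ (∀ i, x i % 2 = 1)) ∧ (∑ i, x i) % 4 = 0

instance (x : Fin 8 → ℤ) : Decidable (inL x) := by unfold inL; infer_instance

lemma inL_sub (x y : Fin 8 → ℤ) (hx : inL x) (hy : inL y) : inL (fun i => x i - y i) := by
  obtain ⟨hx1, hx2⟩ := hx
  obtain ⟨hy1, hy2⟩ := hy
  refine ⟨?_, ?_⟩
  · rcases hx1 with hx1 | hx1 <;> rcases hy1 with hy1 | hy1
    · left; intro i; have h5 := hx1 i; have h6 := hy1 i; dsimp only; omega
    · right; intro i; have h5 := hx1 i; have h6 := hy1 i; dsimp only; omega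
    · right; intro i; have h5 := hx1 i; have h6 := hy1 i; dsimp only; omega
    · left; intro i; have h5 := hx1 i; have h6 := hy1 i; dsimp only; omega
  · rw [Finset.sum_sub_distrib]; omega

lemma inL_add (x y : Fin 8 → ℤ) (hx : inL x) (hy : inL y) : inL (fun i => x i + y i) := by
  obtain ⟨hx1, hx2⟩ := hx
  obtain ⟨hy1, hy2⟩ := hy
  refine ⟨?_, ?_⟩
  · rcases hx1 with hx1 | hx1 <;> rcases hy1 with hy1 | hy1
    · left; intro i; have h5 := hx1 i; have h6 := hy1 i; dsimp only; omega
    · right; intro i; have h5 := hx1 i; have h6 := hy1 i; dsimp only; omega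
    · right; intro i; have h5 := hx1 i; have h6 := hy1 i; dsimp only; omega
    · left; intro i; have h5 := hx1 i; have h6 := hy1 i; dsimp only; omega
  · rw [Finset.sum_add_distrib]; omega

lemma norm_inL (z : Fin 8 → ℤ) (hz : inL z) (h0 : z ≠ 0) : 8 ≤ ∑ i, z i * z i := by
  obtain ⟨h1 | h1, h2⟩ := hz
  · obtain ⟨y, hy⟩ : ∃ y : Fin 8 → ℤ, ∀ i, z i = 2 * y i :=
      ⟨fun i => z i / 2, fun i => by have := h1 i; dsimp only; omega⟩
    have e1 : ∑ i, z i = 2 * ∑ i, y i := by
      rw [Finset.mul_sum]; exact Finset.sum_congr rfl fun i _ => hy i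
    have e2 : ∑ i, z i * z i = 4 * ∑ i, y i * y i := by
      rw [Finset.mul_sum]; exact Finset.sum_congr rfl fun i _ => by rw [hy i]; ring
    have e3 : (∑ i, y i) % 2 = 0 := by omega
    have e4 : ∃ m, ∑ i, y i * y i - ∑ i, y i = 2 * m := by
      rw [← Finset.sum_sub_distrib]
      have : ∀ i, ∃ m, y i * y i - y i = 2 * m := by
        intro i
        obtain ⟨m, hm⟩ := Int.even_mul_pred_self (y i)
        exact ⟨m, by rw [← two_mul] at hm; rw [← hm]; ring⟩
      choose m hm using this
      exact ⟨∑ i, m i, by rw [Finset.mul_sum]; exact Finset.sum_congr rfl fun i _ => hm i⟩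
    obtain ⟨m, hm⟩ := e4
    have e5 : 0 < ∑ i, y i * y i := by
      obtain ⟨i, hi⟩ : ∃ i, z i ≠ 0 := by
        by_contra hc
        push Not at hc
        exact h0 (funext hc)
      have hyi : y i ≠ 0 := by
        intro h; apply hi; rw [hy i, h]; rfl
      refine Finset.sum_pos' (fun j _ => mul_self_nonneg _) ⟨i, Finset.mem_univ i, ?_⟩
      exact mul_self_pos.mpr hyi
    omega
  · have : ∀ i, 1 ≤ z i * z i := by
      intro i
      have : z i ≠ 0 := by have := h1 i; omega
      exact Int.add_one_le_iff.mpr (mul_self_pos.mpr this)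
    calc (8 : ℤ) = ∑ _i : Fin 8, (1 : ℤ) := by simp
      _ ≤ ∑ i, z i * z i := Finset.sum_le_sum fun i _ => this i

/-- the vector of a list -/
def vec (l : List ℤ) : Fin 8 → ℤ := fun i => l.getD i 0

lemma list8 (l : List ℤ) (h : l.length = 8) :
    ∃ a b c d e f g k, l = [a, b, c, d, e, f, g, k] := by
  match l, h with
  | [a, b, c, d, e, f, g, k], _ => exact ⟨a, b, c, d, e, f, g, k, rfl⟩

lemma vec_inj (l m : List ℤ) (hl : l.length = 8) (hm : m.length = 8) (h : vec l = vec m) :
    l = m := by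
  apply List.ext_getElem (by rw [hl, hm])
  intro i h1 h2
  have h3 := congrFun h ⟨i, by omega⟩
  simp only [vec] at h3
  rwa [List.getD_eq_getElem _ _ h1, List.getD_eq_getElem _ _ h2] at h3

lemma root_spec (l : List ℤ) (hl : l ∈ rootList) : l.length = 8 ∧ inL (vec l) ∧
    (∀ i, -2 ≤ vec l i ∧ vec l i ≤ 2) ∧ ∑ i, vec l i * vec l i = 8 := by
  have h := List.all_eq_true.mp rootList_good l hl
  simp only [goodRoot, Bool.and_eq_true, beq_iff_eq, Bool.or_eq_true, List.all_eq_true,
    decide_eq_true_eq] at h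
  obtain ⟨⟨⟨⟨h1, h2⟩, h3⟩, h4⟩, h5⟩ := h
  refine ⟨h1, ?_⟩
  obtain ⟨a, b, c, d, e, f, g, k, rfl⟩ := list8 l h1
  simp only [List.mem_cons, List.not_mem_nil, or_false, forall_eq_or_imp, forall_eq] at h2 h3
  simp only [List.sum_cons, List.sum_nil, List.map_cons, List.map_nil] at h4 h5
  refine ⟨⟨?_, ?_⟩, ?_, ?_⟩
  · rcases h3 with h3 | h3
    · left
      intro i
      fin_cases i <;> simp [vec] <;> omega
    · right
      intro i
      fin_cases i <;> simp [vec] <;> omega
  · simp only [vec, Fin.sum_univ_eight]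
    simp
    omega
  · intro i
    fin_cases i <;> simp [vec] <;> omega
  · simp only [vec, Fin.sum_univ_eight]
    simp
    linarith

end Pool.Agent.H104.AKN.E8
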