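import Pool.Agent.H104.AKN.LowerGen
import Pool.Agent.H104.AKN.E8Roots

/-!
# Finite pieces of the lattice `E8`
-/

namespace Pool.Agent.H104.AKN.E8

open Finset Metric

/-- the set of roots -/
def roots : Finset (Fin 8 → ℤ) := (rootList.map vec).toFinset

lemma card_roots : roots.card = 240 := by
  unfold roots
  rw [List.toFinset_card_of_nodup, List.length_map, rootList_length]
  refine List.Nodup.map_on ?_ rootList_nodup
  intro l hl m hm h
  exact vec_inj l m (root_spec l hl).1 (root_spec m hm).1 h

lemma mem_roots (z : Fin 8 → ℤ) (hz : z ∈ roots) :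
    inL z ∧ (∀ i, -2 ≤ z i ∧ z i ≤ 2) ∧ ∑ i, z i * z i = 8 := by
  unfold roots at hz
  rw [List.mem_toFinset, List.mem_map] at hz
  obtain ⟨l, hl, rfl⟩ := hz
  exact (root_spec l hl).2

/-- lattice points in the unit cell -/
noncomputable def cell : Finset (Fin 8 → ℤ) := (Fintype.piFinset fun _ => Finset.Ico (0 : ℤ) 4).filter inL

lemma zero_mem_cell : (0 : Fin 8 → ℤ) ∈ cell := by
  unfold cell
  rw [Finset.mem_filter, Fintype.mem_piFinset]
  refine ⟨fun i => by simp, Or.inl fun i => by simp, by simp⟩

/-- translates of the cell -/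
noncomputable def box (a b : ℤ) : Finset (Fin 8 → ℤ) :=
  ((Fintype.piFinset fun _ => Finset.Ico a b) ×ˢ cell).image (fun p i => 4 * p.1 i + p.2 i)

lemma card_box (a b : ℤ) : (box a b).card = (b - a).toNat ^ 8 * cell.card := by
  unfold box
  rw [Finset.card_image_of_injOn, Finset.card_product, Fintype.card_piFinset_const, Int.card_Ico]
  · intro p hp q hq h
    simp only [Finset.coe_product, Set.mem_prod, Finset.mem_coe] at hp hq
    have hp2 := hp.2
    have hq2 := hq.2
    unfold cell at hp2 hq2
    rw [Finset.mem_filter, Fintype.mem_piFinset] at hp2 hq2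
    have h1 : ∀ i, p.1 i = q.1 i ∧ p.2 i = q.2 i := by
      intro i
      have h2 := congrFun h i
      have h3 := hp2.1 i
      have h4 := hq2.1 i
      rw [Finset.mem_Ico] at h3 h4
      dsimp only at h2
      omega
    exact Prod.ext (funext fun i => (h1 i).1) (funext fun i => (h1 i).2)

lemma inL_mod (z : Fin 8 → ℤ) (hz : inL z) : inL (fun i => z i % 4) := by
  obtain ⟨h1, h2⟩ := hz
  refine ⟨?_, ?_⟩
  · rcases h1 with h1 | h1
    · left; intro i; have := h1 i; dsimp only; omega
    · right; intro i; have := h1 i; dsimp only; omega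
  · rw [← Finset.sum_int_mod]; exact h2

lemma mem_box (a b : ℤ) (z : Fin 8 → ℤ) : z ∈ box a b ↔ inL z ∧ ∀ i, 4 * a ≤ z i ∧ z i < 4 * b := by
  unfold box
  rw [Finset.mem_image]
  constructor
  · rintro ⟨p, hp, rfl⟩
    rw [Finset.mem_product, Fintype.mem_piFinset] at hp
    obtain ⟨hp1, hp2⟩ := hp
    unfold cell at hp2
    rw [Finset.mem_filter, Fintype.mem_piFinset] at hp2
    refine ⟨⟨?_, ?_⟩, ?_⟩
    · rcases hp2.2.1 with h | h
      · left; intro i; have := h i; dsimp only; omega
      · right; intro i; have := h i; dsimp only; omega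
    · rw [Finset.sum_add_distrib, ← Finset.mul_sum]
      have := hp2.2.2
      omega
    · intro i
      have h3 := hp1 i
      have h4 := hp2.1 i
      rw [Finset.mem_Ico] at h3 h4
      dsimp only
      omega
  · rintro ⟨hz, hb⟩
    refine ⟨(fun i => z i / 4, fun i => z i % 4), ?_, ?_⟩
    · rw [Finset.mem_product, Fintype.mem_piFinset]
      refine ⟨?_, ?_⟩
      · intro i
        have := hb i
        rw [Finset.mem_Ico]
        dsimp only
        omega
      · unfold cell
        rw [Finset.mem_filter, Fintype.mem_piFinset]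
        refine ⟨?_, inL_mod z hz⟩
        intro i
        rw [Finset.mem_Ico]
        dsimp only
        omega
    · funext i
      dsimp only
      omega

lemma lower_packing (M : ℕ) (hM : 3 ≤ M) :
    ∃ P : Packing 8, (240 : ℝ) * (((M : ℝ) - 2) / M) ^ 8 ≤ P.avg := by
  have hc : 0 < cell.card := Finset.card_pos.mpr ⟨0, zero_mem_cell⟩
  have hS : (box 0 M).Nonempty := by
    rw [← Finset.card_pos, card_box]
    have : 0 < ((M : ℤ) - 0).toNat := by omega
    positivity
  have hI : box 1 (M - 1) ⊆ box 0 M := by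
    intro z hz
    rw [mem_box] at hz ⊢
    refine ⟨hz.1, fun i => ?_⟩
    have := hz.2 i
    omega
  obtain ⟨P, hP⟩ := exists_packing (box 0 M) hS 8 (by norm_num) (by
      intro z hz z' hz' h
      rw [mem_box] at hz hz'
      have h1 := norm_inL _ (inL_sub z z' hz.1 hz'.1) (by
        intro h2
        apply h
        funext i
        have := congrFun h2 i
        simp only [Pi.zero_apply] at this
        omega)
      exact_mod_cast h1) (box 1 (M - 1)) hI 240 (by
      intro z hz
      rw [mem_box] at hz
      refine ⟨roots.image (fun ρ i => z i + ρ i), ?_, ?_, ?_⟩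
      · intro z' hz'
        rw [Finset.mem_image] at hz'
        obtain ⟨ρ, hρ, rfl⟩ := hz'
        have h3 := mem_roots ρ hρ
        rw [mem_box]
        refine ⟨inL_add z ρ hz.1 h3.1, ?_⟩
        intro i
        have h4 := hz.2 i
        have h5 := h3.2.1 i
        omega
      · rw [Finset.card_image_of_injective, card_roots]
        intro ρ ρ' h
        funext i
        have := congrFun h i
        simpa using this
      · intro z' hz'
        rw [Finset.mem_image] at hz'
        obtain ⟨ρ, hρ, rfl⟩ := hz'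
        have h3 := (mem_roots ρ hρ).2.2
        push_cast
        rw [← h3]
        apply Finset.sum_congr rfl
        intro i _
        ring)
  refine ⟨P, le_trans (le_of_eq ?_) hP⟩
  rw [card_box, card_box]
  have e1 : ((M : ℤ) - 1 - 1).toNat = M - 2 := by omega
  have e2 : ((M : ℤ) - 0).toNat = M := by omega
  rw [e1, e2]
  have hM' : (0 : ℝ) < M := by exact_mod_cast (by omega : 0 < M)
  have hc' : (0 : ℝ) < cell.card := by exact_mod_cast hc
  push_cast
  rw [Nat.cast_sub (by omega)]
  field_simp
  push_cast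
  ring

lemma le_of_forall_lower (K : ℝ) (h : ∀ P : Packing 8, P.avg ≤ K) : 240 ≤ K := by
  have h1 : Filter.Tendsto (fun M : ℕ => (240 : ℝ) * (1 - 2 * ((M : ℝ))⁻¹) ^ 8) Filter.atTop
      (nhds (240 * (1 - 2 * 0) ^ 8)) := by
    apply Filter.Tendsto.const_mul
    apply Filter.Tendsto.pow
    apply Filter.Tendsto.const_sub
    apply Filter.Tendsto.const_mul
    exact tendsto_inv_atTop_nhds_zero_nat
  have h2 : (240 : ℝ) * (1 - 2 * 0) ^ 8 ≤ K := by
    apply le_of_tendsto h1
    filter_upwards [Filter.eventually_ge_atTop 3] with M hM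
    obtain ⟨P, hP⟩ := lower_packing M hM
    refine le_trans (le_of_eq ?_) (hP.trans (h P))
    have hM' : (0 : ℝ) < M := by exact_mod_cast (by omega : 0 < M)
    congr 1
    congr 1
    field_simp
  linarith

/-- the root system as a kissing configuration -/
lemma exists_kissing : ∃ X : Finset (EuclideanSpace ℝ (Fin 8)), IsKissing 8 X ∧ X.card = 240 := by
  classical
  have h2 : (0 : ℝ) < Real.sqrt 2 := Real.sqrt_pos.mpr (by norm_num)
  have h22 : Real.sqrt 2 ^ 2 = 2 := Real.sq_sqrt (by norm_num)
  set f : (Fin 8 → ℤ) → EuclideanSpace ℝ (Fin 8) := fun z => WithLp.toLp 2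
    (fun i => (z i : ℝ) / Real.sqrt 2) with hf
  have hd : ∀ z z' : Fin 8 → ℤ, dist (f z) (f z') ^ 2 =
      ((∑ i, (z i - z' i) * (z i - z' i) : ℤ) : ℝ) / 2 := by
    intro z z'
    rw [sqdist_sum]
    push_cast
    rw [Finset.sum_div]
    apply Finset.sum_congr rfl
    intro i _
    simp only [hf]
    rw [← sub_div, div_pow, h22]
    ring
  have hinj : Function.Injective f := by
    intro z z' h
    funext i
    have h3 : (f z) i = (f z') i := by rw [h]
    simp only [hf] at h3
    have h4 : ((z i : ℝ)) = z' i := by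
      field_simp at h3
      exact h3
    exact_mod_cast h4
  refine ⟨roots.image f, ⟨?_, ?_⟩, ?_⟩
  · intro x hx
    rw [Finset.mem_image] at hx
    obtain ⟨ρ, hρ, rfl⟩ := hx
    have h3 : f 0 = 0 := by
      ext i
      simp [hf]
    have h4 := hd ρ 0
    simp only [Pi.zero_apply, sub_zero] at h4
    rw [(mem_roots ρ hρ).2.2, h3] at h4
    have h5 : dist (f ρ) 0 ^ 2 = (1 + 1) ^ 2 := by rw [h4]; norm_num
    exact (pow_left_inj₀ dist_nonneg (by norm_num) (by norm_num)).mp h5
  · intro x hx y hy hxy
    rw [Finset.mem_image] at hx hy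
    obtain ⟨ρ, hρ, rfl⟩ := hx
    obtain ⟨ρ', hρ', rfl⟩ := hy
    apply disjoint_of_dist_ge _ _ _ _ one_pos one_pos
    apply le_of_sq_le_sq _ dist_nonneg
    rw [hd]
    have h1 := norm_inL _ (inL_sub ρ ρ' (mem_roots ρ hρ).1 (mem_roots ρ' hρ').1) (by
        intro h2
        apply hxy
        congr 1
        funext i
        have := congrFun h2 i
        simp only [Pi.zero_apply] at this
        omega)
    have h1' : ((8 : ℤ) : ℝ) ≤ ((∑ i, (ρ i - ρ' i) * (ρ i - ρ' i) : ℤ) : ℝ) := by
      exact_mod_cast h1
    push_cast at h1' ⊢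
    linarith
  · rw [Finset.card_image_of_injective _ hinj, card_roots]

end Pool.Agent.H104.AKN.E8
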