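import Mathlib

open MvPolynomial Finset

namespace Pool.Agent.H104.AKN

variable {n : ℕ}

/-- product of factorials -/
noncomputable def fac (m : Fin n →₀ ℕ) : ℝ := ∏ i, ((m i).factorial : ℝ)

lemma fac_pos (m : Fin n →₀ ℕ) : 0 < fac m := by
  unfold fac
  exact Finset.prod_pos fun i _ => by positivity

lemma fac_add_single (m : Fin n →₀ ℕ) (i : Fin n) :
    fac (Finsupp.single i 1 + m) = ((m i : ℝ) + 1) * fac m := by
  unfold fac
  rw [← Finset.mul_prod_erase _ _ (Finset.mem_univ i),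
    ← Finset.mul_prod_erase _ _ (Finset.mem_univ i)]
  have h1 : ((Finsupp.single i 1 + m : Fin n →₀ ℕ) i).factorial = (m i + 1) * (m i).factorial := by
    simp only [Finsupp.add_apply, Finsupp.single_eq_same]
    rw [add_comm, Nat.factorial_succ]
  have h2 : ∀ j ∈ Finset.univ.erase i,
      (((Finsupp.single i 1 + m : Fin n →₀ ℕ) j).factorial : ℝ) = ((m j).factorial : ℝ) := by
    intro j hj
    have hj' : j ≠ i := Finset.ne_of_mem_erase hj
    simp [hj']
  rw [h1, Finset.prod_congr rfl h2]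
  push_cast
  ring

/-- the Fischer inner product of polynomials -/
noncomputable def fis (p q : MvPolynomial (Fin n) ℝ) : ℝ :=
  ∑ m ∈ p.support, coeff m p * coeff m q * fac m

lemma fis_eq (p q : MvPolynomial (Fin n) ℝ) (S : Finset (Fin n →₀ ℕ)) (hS : p.support ⊆ S) :
    fis p q = ∑ m ∈ S, coeff m p * coeff m q * fac m := by
  unfold fis
  apply Finset.sum_subset hS
  intro m _ hm
  rw [notMem_support_iff] at hm
  rw [hm]; ring

lemma fis_add_left (p p' q : MvPolynomial (Fin n) ℝ) : fis (p + p') q = fis p q + fis p' q := by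
  classical
  rw [fis_eq (p + p') q (p.support ∪ p'.support) support_add,
    fis_eq p q (p.support ∪ p'.support) subset_union_left,
    fis_eq p' q (p.support ∪ p'.support) subset_union_right, ← Finset.sum_add_distrib]
  apply Finset.sum_congr rfl
  intro m _
  rw [coeff_add]; ring

lemma fis_add_right (p q q' : MvPolynomial (Fin n) ℝ) : fis p (q + q') = fis p q + fis p q' := by
  unfold fis
  rw [← Finset.sum_add_distrib]
  apply Finset.sum_congr rfl
  intro m _
  rw [coeff_add]; ring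

lemma fis_zero_left (q : MvPolynomial (Fin n) ℝ) : fis 0 q = 0 := by simp [fis]

lemma fis_zero_right (q : MvPolynomial (Fin n) ℝ) : fis q 0 = 0 := by simp [fis]

lemma fis_C_mul_right (a : ℝ) (p q : MvPolynomial (Fin n) ℝ) : fis p (C a * q) = a * fis p q := by
  unfold fis
  rw [Finset.mul_sum]
  apply Finset.sum_congr rfl
  intro m _
  rw [coeff_C_mul]; ring

lemma fis_C_mul_left (a : ℝ) (p q : MvPolynomial (Fin n) ℝ) : fis (C a * p) q = a * fis p q := by
  classical
  have hs : (C a * p).support ⊆ p.support := by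
    intro m hm
    rw [mem_support_iff, coeff_C_mul] at hm
    rw [mem_support_iff]
    exact right_ne_zero_of_mul hm
  rw [fis_eq _ q _ hs, fis, Finset.mul_sum]
  apply Finset.sum_congr rfl
  intro m _
  rw [coeff_C_mul]; ring

lemma fis_sum_left {ι : Type*} (s : Finset ι) (f : ι → MvPolynomial (Fin n) ℝ)
    (q : MvPolynomial (Fin n) ℝ) : fis (∑ i ∈ s, f i) q = ∑ i ∈ s, fis (f i) q := by
  classical
  induction s using Finset.induction_on with
  | empty => simp [fis_zero_left]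
  | insert a s ha ih => rw [Finset.sum_insert ha, Finset.sum_insert ha, fis_add_left, ih]

lemma fis_sum_right {ι : Type*} (s : Finset ι) (f : ι → MvPolynomial (Fin n) ℝ)
    (q : MvPolynomial (Fin n) ℝ) : fis q (∑ i ∈ s, f i) = ∑ i ∈ s, fis q (f i) := by
  classical
  induction s using Finset.induction_on with
  | empty => simp [fis_zero_right]
  | insert a s ha ih => rw [Finset.sum_insert ha, Finset.sum_insert ha, fis_add_right, ih]

lemma fis_self_nonneg (p : MvPolynomial (Fin n) ℝ) : 0 ≤ fis p p := by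
  unfold fis
  apply Finset.sum_nonneg
  intro m _
  exact mul_nonneg (mul_self_nonneg _) (fac_pos m).le

/-- multiplication by a variable is adjoint to the derivative -/
lemma fis_X_mul (i : Fin n) (p q : MvPolynomial (Fin n) ℝ) :
    fis (X i * p) q = fis p (pderiv i q) := by
  classical
  unfold fis
  rw [support_X_mul, Finset.sum_map]
  apply Finset.sum_congr rfl
  intro m _
  simp only [addLeftEmbedding_apply]
  rw [coeff_X_mul, fac_add_single, coeff_pderiv, add_comm (Finsupp.single i 1) m]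
  ring

/-- the Laplace operator -/
noncomputable def lap (p : MvPolynomial (Fin n) ℝ) : MvPolynomial (Fin n) ℝ :=
  ∑ i, pderiv i (pderiv i p)

/-- the sum of the squares of the variables -/
noncomputable def sq (n : ℕ) : MvPolynomial (Fin n) ℝ := ∑ i, X i * X i

/-- the linear form of a vector -/
noncomputable def lin (x : Fin n → ℝ) : MvPolynomial (Fin n) ℝ := ∑ i, C (x i) * X i

lemma fis_sq_mul (p q : MvPolynomial (Fin n) ℝ) : fis (sq n * p) q = fis p (lap q) := by
  unfold sq lap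
  rw [Finset.sum_mul, fis_sum_left, fis_sum_right]
  apply Finset.sum_congr rfl
  intro i _
  rw [mul_assoc, fis_X_mul, fis_X_mul]

/-- directional derivative -/
noncomputable def dir (x : Fin n → ℝ) (p : MvPolynomial (Fin n) ℝ) : MvPolynomial (Fin n) ℝ :=
  ∑ i, C (x i) * pderiv i p

lemma fis_lin_mul (x : Fin n → ℝ) (p q : MvPolynomial (Fin n) ℝ) :
    fis (lin x * p) q = fis p (dir x q) := by
  unfold lin dir
  rw [Finset.sum_mul, fis_sum_left, fis_sum_right]
  apply Finset.sum_congr rfl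
  intro i _
  rw [mul_assoc, fis_C_mul_left, fis_C_mul_right, fis_X_mul]

lemma dir_homog (x : Fin n → ℝ) (q : MvPolynomial (Fin n) ℝ) (k : ℕ)
    (hq : q.IsHomogeneous (k + 1)) : (dir x q).IsHomogeneous k := by
  unfold dir
  apply IsHomogeneous.sum
  intro i _
  have h := (hq.pderiv (i := i))
  simpa using h.C_mul (x i)

lemma eval_dir (x : Fin n → ℝ) (q : MvPolynomial (Fin n) ℝ) (k : ℕ)
    (hq : q.IsHomogeneous k) : eval x (dir x q) = k * eval x q := by
  have h := hq.sum_X_mul_pderiv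
  have h2 := congrArg (eval x) h
  simp only [map_sum, map_mul, eval_X, nsmul_eq_mul, map_natCast] at h2
  unfold dir
  simp only [map_sum, map_mul, eval_C]
  exact h2

lemma fis_one (q : MvPolynomial (Fin n) ℝ) (hq : q.IsHomogeneous 0) (x : Fin n → ℝ) :
    fis 1 q = eval x q := by
  rw [← totalDegree_zero_iff_isHomogeneous, totalDegree_eq_zero_iff_eq_C] at hq
  rw [hq, eval_C]
  rw [fis_eq 1 _ {0} (by intro m hm; simpa [coeff_one] using hm)]
  simp [fac]

lemma fis_lin_pow (x : Fin n → ℝ) (k : ℕ) : ∀ q : MvPolynomial (Fin n) ℝ, q.IsHomogeneous k →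
    fis (lin x ^ k) q = (k.factorial : ℝ) * eval x q := by
  induction k with
  | zero => intro q hq; rw [pow_zero, fis_one q hq x]; simp
  | succ k ih =>
    intro q hq
    rw [pow_succ', fis_lin_mul, ih _ (dir_homog x q k hq), eval_dir x q (k + 1) hq,
      Nat.factorial_succ]
    push_cast
    ring

lemma pderiv_sq (i : Fin n) : pderiv i (sq n) = C 2 * X i := by
  classical
  unfold sq
  rw [map_sum, Finset.sum_eq_single i]
  · rw [pderiv_mul, pderiv_X_self]
    rw [show (C 2 : MvPolynomial (Fin n) ℝ) = 1 + 1 by rw [← C_1, ← C_add]; norm_num]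
    ring
  · intro j _ hj
    rw [pderiv_mul, pderiv_X_of_ne hj]; ring
  · intro h; exact absurd (Finset.mem_univ i) h

lemma pderiv_lin (x : Fin n → ℝ) (i : Fin n) : pderiv i (lin x) = C (x i) := by
  classical
  unfold lin
  rw [map_sum, Finset.sum_eq_single i]
  · rw [pderiv_C_mul, pderiv_X_self, mul_one]
  · intro j _ hj
    rw [pderiv_C_mul, pderiv_X_of_ne hj, mul_zero]
  · intro h; exact absurd (Finset.mem_univ i) h

lemma sum_X_mul_X : ∑ i, (X i * X i : MvPolynomial (Fin n) ℝ) = sq n := rfl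

lemma hC_nat (j : ℕ) : (C (j : ℝ) : MvPolynomial (Fin n) ℝ) = (j : MvPolynomial (Fin n) ℝ) := by
  simp

lemma pderiv_mul_pow (x : Fin n → ℝ) (j m : ℕ) (i : Fin n) :
    pderiv i (sq n ^ j * lin x ^ m) =
      2 * (j : MvPolynomial (Fin n) ℝ) * (X i * (sq n ^ (j - 1) * lin x ^ m)) +
      (m : MvPolynomial (Fin n) ℝ) * (C (x i) * (sq n ^ j * lin x ^ (m - 1))) := by
  rw [pderiv_mul, pderiv_pow, pderiv_pow, pderiv_sq, pderiv_lin,
    show (C 2 : MvPolynomial (Fin n) ℝ) = 2 by
      rw [show (2 : ℝ) = 1 + 1 by norm_num, C_add, C_1]; norm_num]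
  ring

/-- the Laplace operator on the products of the powers of the squared norm and a linear form -/
lemma lap_mul (x : Fin n → ℝ) (hx : ∑ i, x i * x i = 1) (j m : ℕ) :
    lap (sq n ^ j * lin x ^ m) =
      C (2 * j * (n + 2 * j - 2 + 2 * m) : ℝ) * (sq n ^ (j - 1) * lin x ^ m) +
      C (m * (m - 1) : ℝ) * (sq n ^ j * lin x ^ (m - 2)) := by
  have hx' : ∑ i, (C (x i) * C (x i) : MvPolynomial (Fin n) ℝ) = 1 := by
    rw [← C_1, ← hx, map_sum]
    simp [C_mul]
  have hlx : ∑ i, (X i * C (x i) : MvPolynomial (Fin n) ℝ) = lin x := by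
    unfold lin
    exact Finset.sum_congr rfl fun i _ => mul_comm _ _
  have key : ∀ i, pderiv i (pderiv i (sq n ^ j * lin x ^ m)) =
      2 * (j : MvPolynomial (Fin n) ℝ) * (sq n ^ (j - 1) * lin x ^ m) +
      2 * (j : MvPolynomial (Fin n) ℝ) * (2 * ((j - 1 : ℕ) : MvPolynomial (Fin n) ℝ)) *
        (sq n ^ (j - 1 - 1) * lin x ^ m) * (X i * X i) +
      4 * (j : MvPolynomial (Fin n) ℝ) * (m : MvPolynomial (Fin n) ℝ) *
        (sq n ^ (j - 1) * lin x ^ (m - 1)) * (X i * C (x i)) +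
      (m : MvPolynomial (Fin n) ℝ) * ((m - 1 : ℕ) : MvPolynomial (Fin n) ℝ) *
        (sq n ^ j * lin x ^ (m - 1 - 1)) * (C (x i) * C (x i)) := by
    intro i
    rw [pderiv_mul_pow, map_add, ← hC_nat j, ← hC_nat m,
      show (2 : MvPolynomial (Fin n) ℝ) = C 2 by
        rw [show (2 : ℝ) = 1 + 1 by norm_num, C_add, C_1]; norm_num, ← C_mul,
      pderiv_C_mul, pderiv_C_mul, pderiv_C_mul, pderiv_mul, pderiv_X_self, pderiv_mul_pow,
      pderiv_mul_pow, C_mul,
      show (C 2 : MvPolynomial (Fin n) ℝ) = 2 by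
        rw [show (2 : ℝ) = 1 + 1 by norm_num, C_add, C_1]; norm_num, hC_nat, hC_nat]
    ring
  unfold lap
  rw [Finset.sum_congr rfl fun i _ => key i]
  have s2 : ∀ B : MvPolynomial (Fin n) ℝ, ∑ i, B * (X i * X i) = B * sq n := by
    intro B; rw [← Finset.mul_sum, sum_X_mul_X]
  have s3 : ∀ B : MvPolynomial (Fin n) ℝ, ∑ i, B * (X i * C (x i)) = B * lin x := by
    intro B; rw [← Finset.mul_sum, hlx]
  have s4 : ∀ B : MvPolynomial (Fin n) ℝ, ∑ i, B * (C (x i) * C (x i)) = B := by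
    intro B; rw [← Finset.mul_sum, hx', mul_one]
  rw [Finset.sum_add_distrib, Finset.sum_add_distrib, Finset.sum_add_distrib, s2, s3, s4,
    Finset.sum_const, Finset.card_univ, Fintype.card_fin, nsmul_eq_mul]
  have h2 : (C 2 : MvPolynomial (Fin n) ℝ) = 2 := by
    rw [show (2 : ℝ) = 1 + 1 by norm_num, C_add, C_1]; norm_num
  have hm2 : ∀ m : ℕ, m + 1 + 1 - 2 = m := fun m => by omega
  rcases j with _ | _ | j <;> rcases m with _ | _ | m <;>
    simp only [hm2, Nat.cast_zero, Nat.cast_succ, C_mul, C_add, C_sub, C_0,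
      C_1, hC_nat, h2, Nat.add_sub_cancel, pow_zero, zero_add, Nat.sub_self, Nat.zero_sub,
      pow_succ, mul_zero, zero_mul, add_zero, sub_self, mul_one, one_mul] <;>
    ring_nf

lemma sq_homog : (sq n).IsHomogeneous 2 := by
  unfold sq
  apply IsHomogeneous.sum
  intro i _
  exact (isHomogeneous_X ℝ i).mul (isHomogeneous_X ℝ i)

lemma lin_homog (x : Fin n → ℝ) : (lin x).IsHomogeneous 1 := by
  unfold lin
  apply IsHomogeneous.sum
  intro i _
  exact (isHomogeneous_X ℝ i).C_mul (x i)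

/-- the zonal polynomial with coefficients `a` -/
noncomputable def zon (k : ℕ) (a : ℕ → ℝ) (x : Fin n → ℝ) : MvPolynomial (Fin n) ℝ :=
  ∑ j ∈ Finset.range (k / 2 + 1), C (a j) * (sq n ^ j * lin x ^ (k - 2 * j))

lemma zon_homog (k : ℕ) (a : ℕ → ℝ) (x : Fin n → ℝ) : (zon k a x).IsHomogeneous k := by
  unfold zon
  apply IsHomogeneous.sum
  intro j hj
  have hj' : 2 * j ≤ k := by
    have := Finset.mem_range.1 hj
    omega
  have h := ((sq_homog (n := n)).pow j).mul ((lin_homog x).pow (k - 2 * j))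
  have hk : 2 * j + 1 * (k - 2 * j) = k := by omega
  rw [hk] at h
  exact h.C_mul (a j)

/-- the recursion of the coefficients of the Gegenbauer polynomials -/
def Rec (n k : ℕ) (a : ℕ → ℝ) : Prop :=
  ∀ j : ℕ, 2 * (j + 1) ≤ k →
    a (j + 1) * (2 * (j + 1) * (n + 2 * k - 2 * j - 4)) + a j * ((k - 2 * j) * (k - 2 * j - 1)) = 0

lemma lap_add (p q : MvPolynomial (Fin n) ℝ) : lap (p + q) = lap p + lap q := by
  unfold lap
  rw [← Finset.sum_add_distrib]
  exact Finset.sum_congr rfl fun i _ => by rw [map_add, map_add]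

lemma lap_zero : lap (0 : MvPolynomial (Fin n) ℝ) = 0 := by simp [lap]

lemma lap_sum {ι : Type*} (s : Finset ι) (f : ι → MvPolynomial (Fin n) ℝ) :
    lap (∑ i ∈ s, f i) = ∑ i ∈ s, lap (f i) := by
  classical
  induction s using Finset.induction_on with
  | empty => simp [lap_zero]
  | insert a s ha ih => rw [Finset.sum_insert ha, Finset.sum_insert ha, lap_add, ih]

lemma lap_C_mul (a : ℝ) (p : MvPolynomial (Fin n) ℝ) : lap (C a * p) = C a * lap p := by
  unfold lap
  rw [Finset.mul_sum]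
  exact Finset.sum_congr rfl fun i _ => by rw [pderiv_C_mul, pderiv_C_mul]

lemma lap_zon (k : ℕ) (a : ℕ → ℝ) (ha : Rec n k a) (x : Fin n → ℝ) (hx : ∑ i, x i * x i = 1) :
    lap (zon k a x) = 0 := by
  unfold zon
  rw [lap_sum]
  have h1 : ∀ j ∈ Finset.range (k / 2 + 1),
      lap (C (a j) * (sq n ^ j * lin x ^ (k - 2 * j))) =
      C (a j * (2 * j * (n + 2 * j - 2 + 2 * (k - 2 * j : ℕ)))) *
        (sq n ^ (j - 1) * lin x ^ (k - 2 * j)) +
      C (a j * ((k - 2 * j : ℕ) * ((k - 2 * j : ℕ) - 1))) *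
        (sq n ^ j * lin x ^ (k - 2 * j - 2)) := by
    intro j _
    rw [lap_C_mul, lap_mul x hx, mul_add, ← mul_assoc (C (a j)) (C _) (sq n ^ (j - 1) * _),
      ← mul_assoc (C (a j)) (C _) (sq n ^ j * _), ← C_mul, ← C_mul]
  rw [Finset.sum_congr rfl h1, Finset.sum_add_distrib]
  rw [Finset.sum_range_succ' (fun j => C (a j * (2 * j * (n + 2 * j - 2 + 2 * (k - 2 * j : ℕ)))) *
        (sq n ^ (j - 1) * lin x ^ (k - 2 * j)))]
  rw [Finset.sum_range_succ (fun j => C (a j * ((k - 2 * j : ℕ) * ((k - 2 * j : ℕ) - 1))) *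
        (sq n ^ j * lin x ^ (k - 2 * j - 2)))]
  have hz1 : (C (a 0 * (2 * (0 : ℕ) * (n + 2 * (0 : ℕ) - 2 + 2 * (k - 2 * 0 : ℕ)))) :
      MvPolynomial (Fin n) ℝ) = 0 := by simp
  have hz2 : (C (a (k / 2) * ((k - 2 * (k / 2) : ℕ) * ((k - 2 * (k / 2) : ℕ) - 1))) :
      MvPolynomial (Fin n) ℝ) = 0 := by
    have : k - 2 * (k / 2) = 0 ∨ k - 2 * (k / 2) = 1 := by omega
    rcases this with h | h <;> rw [h] <;> simp
  rw [hz1, hz2, zero_mul, zero_mul, add_zero, add_zero, ← Finset.sum_add_distrib]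
  apply Finset.sum_eq_zero
  intro j hj
  have hj' : 2 * (j + 1) ≤ k := by
    have := Finset.mem_range.1 hj
    omega
  have e1 : j + 1 - 1 = j := by omega
  have e2 : k - 2 * (j + 1) = k - 2 * j - 2 := by omega
  have c1 : ((k - 2 * (j + 1) : ℕ) : ℝ) = k - 2 * j - 2 := by
    rw [Nat.cast_sub hj']; push_cast; ring
  have c2 : ((k - 2 * j : ℕ) : ℝ) = k - 2 * j := by
    rw [Nat.cast_sub (by omega)]; push_cast; ring
  rw [e1, ← e2, ← add_mul, ← C_add, c1, c2]
  have hr := ha j hj'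
  have : a (j + 1) * (2 * ((j + 1 : ℕ) : ℝ) * (n + 2 * ((j + 1 : ℕ) : ℝ) - 2 +
      2 * (k - 2 * j - 2))) + a j * ((k - 2 * j) * (k - 2 * j - 1)) = 0 := by
    rw [← hr]; push_cast; ring
  rw [this, C_0, zero_mul]

lemma eval_sq (y : Fin n → ℝ) (hy : ∑ i, y i * y i = 1) : eval y (sq n) = 1 := by
  unfold sq
  simp [hy]

lemma eval_lin (x y : Fin n → ℝ) : eval y (lin x) = ∑ i, x i * y i := by
  unfold lin
  simp

lemma eval_zon (k : ℕ) (a : ℕ → ℝ) (x y : Fin n → ℝ) (hy : ∑ i, y i * y i = 1) :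
    eval y (zon k a x) = ∑ j ∈ Finset.range (k / 2 + 1), a j * (∑ i, x i * y i) ^ (k - 2 * j) := by
  unfold zon
  simp only [map_sum, map_mul, map_pow, eval_C, eval_sq y hy, eval_lin, one_pow, one_mul]

lemma fis_zon (k : ℕ) (a : ℕ → ℝ) (ha : Rec n k a) (x y : Fin n → ℝ)
    (hx : ∑ i, x i * x i = 1) (hy : ∑ i, y i * y i = 1) :
    fis (zon k a x) (zon k a y) = a 0 * (k.factorial : ℝ) *
      ∑ j ∈ Finset.range (k / 2 + 1), a j * (∑ i, x i * y i) ^ (k - 2 * j) := by
  have hsum : ∑ i, x i * y i = ∑ i, y i * x i := Finset.sum_congr rfl fun i _ => mul_comm _ _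
  rw [hsum, ← eval_zon k a y x hx]
  conv_lhs => rw [zon]
  rw [fis_sum_left, Finset.sum_range_succ', Finset.sum_eq_zero, zero_add]
  · rw [fis_C_mul_left, pow_zero, one_mul, Nat.mul_zero, Nat.sub_zero,
      fis_lin_pow x k _ (zon_homog k a y)]
    ring
  · intro j _
    rw [fis_C_mul_left, pow_succ', mul_assoc, fis_sq_mul, lap_zon k a ha y hy, fis_zero_right,
      mul_zero]

/-- **Schoenberg**: the Gegenbauer kernels are positive semidefinite. -/
theorem gegenbauer_psd (n k : ℕ) (a : ℕ → ℝ) (h0 : 0 < a 0) (ha : Rec n k a) {ι : Type*}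
    (s : Finset ι) (x : ι → Fin n → ℝ) (hx : ∀ i ∈ s, ∑ t, x i t * x i t = 1) (c : ι → ℝ) :
    0 ≤ ∑ i ∈ s, ∑ j ∈ s, c i * c j *
      ∑ l ∈ Finset.range (k / 2 + 1), a l * (∑ t, x i t * x j t) ^ (k - 2 * l) := by
  have h := fis_self_nonneg (∑ i ∈ s, C (c i) * zon k a (x i))
  rw [fis_sum_left] at h
  have h2 : ∑ i ∈ s, fis (C (c i) * zon k a (x i)) (∑ i ∈ s, C (c i) * zon k a (x i)) =
      (a 0 * (k.factorial : ℝ)) * ∑ i ∈ s, ∑ j ∈ s, c i * c j *
      ∑ l ∈ Finset.range (k / 2 + 1), a l * (∑ t, x i t * x j t) ^ (k - 2 * l) := by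
    rw [Finset.mul_sum]
    apply Finset.sum_congr rfl
    intro i hi
    rw [fis_sum_right, Finset.mul_sum]
    apply Finset.sum_congr rfl
    intro j hj
    rw [fis_C_mul_left, fis_C_mul_right, fis_zon k a ha _ _ (hx i hi) (hx j hj)]
    ring
  rw [h2] at h
  have hpos : 0 < a 0 * (k.factorial : ℝ) := by positivity
  exact nonneg_of_mul_nonneg_right h hpos

end Pool.Agent.H104.AKN
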