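import Pool.Agent.H104.AKN.ListPoly
import Pool.Agent.H104.AKN.Fischer

/-!
# Linear programming bounds for configurations of weighted directions
-/

namespace Pool.Agent.H104.AKN

open Finset

lemma ev1_cons (t : ℝ) (a : ℤ) (p : P1) : ev1 t (a :: p) = (a : ℝ) + t * ev1 t p := rfl

lemma ev1_nil (t : ℝ) : ev1 t [] = 0 := rfl

lemma ev1_eq_sum (t : ℝ) : ∀ p : P1,
    ev1 t p = ∑ m ∈ range p.length, ((p.getD m 0 : ℤ) : ℝ) * t ^ m
  | [] => by simp [ev1_nil]
  | a :: p => by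
    rw [ev1_cons, ev1_eq_sum t p, List.length_cons, Finset.sum_range_succ', Finset.mul_sum, add_comm]
    simp only [List.getD_cons_succ, List.getD_cons_zero, pow_zero, mul_one]
    congr 1
    apply Finset.sum_congr rfl
    intro m _
    ring

/-- positive semidefiniteness of zonal kernels on the unit sphere -/
def PosDef (n : ℕ) (p : P1) : Prop :=
  ∀ (ι : Type) (s : Finset ι) (x : ι → Fin n → ℝ) (_ : ∀ i ∈ s, ∑ t, x i t * x i t = 1)
    (c : ι → ℝ), 0 ≤ ∑ i ∈ s, ∑ j ∈ s, c i * c j * ev1 (∑ t, x i t * x j t) p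

/-- recognizes positive multiples of Gegenbauer polynomials -/
def isGeg (n : ℕ) (p : P1) : Bool :=
  decide (0 < p.length) && decide (0 < p.getD (p.length - 1) 0) &&
  (List.range p.length).all (fun m => (p.length - 1 - m) % 2 == 0 || p.getD m 0 == 0) &&
  (List.range ((p.length - 1) / 2)).all (fun j =>
    p.getD (p.length - 1 - 2 * (j + 1)) 0 *
      (2 * ((j : ℤ) + 1) * ((n : ℤ) + 2 * ((p.length - 1 : ℕ) : ℤ) - 2 * (j : ℤ) - 4)) +
    p.getD (p.length - 1 - 2 * j) 0 *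
      ((((p.length - 1 : ℕ) : ℤ) - 2 * (j : ℤ)) * (((p.length - 1 : ℕ) : ℤ) - 2 * (j : ℤ) - 1)) == 0)

lemma sum_even (k : ℕ) (f : ℕ → ℝ) (h : ∀ j, j ≤ k → j % 2 = 1 → f j = 0) :
    ∑ j ∈ range (k + 1), f j = ∑ l ∈ range (k / 2 + 1), f (2 * l) := by
  have h1 : ∑ l ∈ range (k / 2 + 1), f (2 * l) =
      ∑ j ∈ (range (k / 2 + 1)).image (fun l => 2 * l), f j := by
    rw [Finset.sum_image]
    intro a _ b _ hab
    simp only at hab
    omega
  rw [h1]
  symm
  apply Finset.sum_subset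
  · intro j hj
    simp only [Finset.mem_image, Finset.mem_range] at hj ⊢
    obtain ⟨l, hl, rfl⟩ := hj
    omega
  · intro j hj hj2
    simp only [Finset.mem_image, Finset.mem_range, not_exists, not_and] at hj hj2
    apply h j (by omega)
    by_contra hc
    exact hj2 (j / 2) (by omega) (by omega)

theorem posDef_of_isGeg (n : ℕ) (p : P1) (h : isGeg n p = true) : PosDef n p := by
  simp only [isGeg, Bool.and_eq_true, decide_eq_true_eq, List.all_eq_true, List.mem_range,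
    Bool.or_eq_true, beq_iff_eq] at h
  obtain ⟨⟨⟨h1, h2⟩, h3⟩, h4⟩ := h
  obtain ⟨k, hk⟩ : ∃ k, p.length = k + 1 := ⟨p.length - 1, by omega⟩
  have hk' : p.length - 1 = k := by omega
  rw [hk'] at h2 h3 h4
  rw [hk] at h3
  intro ι s x hx c
  have key : ∀ t : ℝ, ev1 t p = ∑ l ∈ range (k / 2 + 1),
      (fun l => ((p.getD (k - 2 * l) 0 : ℤ) : ℝ)) l * t ^ (k - 2 * l) := by
    intro t
    rw [ev1_eq_sum, hk, ← Finset.sum_range_reflect]
    rw [← sum_even k (fun j => ((p.getD (k - j) 0 : ℤ) : ℝ) * t ^ (k - j))]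
    · apply Finset.sum_congr rfl
      intro j hj
      have : k + 1 - 1 - j = k - j := by omega
      rw [this]
    · intro j hj hj2
      have := h3 (k - j) (by omega)
      rcases this with h5 | h5
      · omega
      · rw [h5, Int.cast_zero, zero_mul]
  have hr : Rec n k (fun l => ((p.getD (k - 2 * l) 0 : ℤ) : ℝ)) := by
    intro j hj
    have h5 := h4 j (by omega)
    have h6 := congrArg (fun z : ℤ => (z : ℝ)) h5
    push_cast at h6
    rw [← h6]
  have h0 : (0 : ℝ) < (fun l => ((p.getD (k - 2 * l) 0 : ℤ) : ℝ)) 0 := by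
    simp only [Nat.mul_zero, Nat.sub_zero]
    exact_mod_cast h2
  have := gegenbauer_psd n k _ h0 hr s x hx c
  simp only [key]
  exact this

/-! ### kernels -/

/-- `φ(v) φ(w) p(t)` -/
def tens (φ p : P1) : P3 := φ.map (fun a => φ.map (fun b => smul1 (a * b) p))

lemma ev2_map (w t : ℝ) (a : ℤ) (p : P1) : ∀ φ : P1,
    ev2 w t (φ.map (fun b => smul1 (a * b) p)) = a * ev1 w φ * ev1 t p
  | [] => by simp [ev2, lev, ev1_nil]
  | b :: φ => by
    have ih := ev2_map w t a p φ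
    simp only [ev2] at ih
    simp only [List.map_cons, ev2, lev, ih]
    rw [ev1_smul, ev1_cons]
    push_cast
    ring

lemma ev3_tens_aux (v w t : ℝ) (ψ p : P1) : ∀ φ : P1,
    ev3 v w t (φ.map (fun a => ψ.map (fun b => smul1 (a * b) p))) = ev1 v φ * ev1 w ψ * ev1 t p
  | [] => by simp [ev3, lev, ev1_nil]
  | a :: φ => by
    have ih := ev3_tens_aux v w t ψ p φ
    simp only [ev3] at ih
    simp only [List.map_cons, ev3, lev, ih]
    rw [ev2_map, ev1_cons]
    ring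

lemma ev3_tens (v w t : ℝ) (φ p : P1) :
    ev3 v w t (tens φ p) = ev1 v φ * ev1 w φ * ev1 t p := ev3_tens_aux v w t φ p φ

/-- sum of the rank one parts -/
def kin (p : P1) : List (ℕ × P1) → P3
  | [] => []
  | q :: r => add3 (smul3 (q.1 : ℤ) (tens q.2 p)) (kin p r)

/-- the kernel -/
def kpoly : List (P1 × List (ℕ × P1)) → P3
  | [] => []
  | q :: r => add3 (kin q.1 q.2) (kpoly r)

/-- diagonal of `kin` -/
def kinD (p : P1) : List (ℕ × P1) → P1
  | [] => []
  | q :: r => add1 (smul1 ((q.1 : ℤ) * p.sum) (mul1 q.2 q.2)) (kinD p r)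

/-- diagonal of the kernel -/
def kdiag : List (P1 × List (ℕ × P1)) → P1
  | [] => []
  | q :: r => add1 (kinD q.1 q.2) (kdiag r)

lemma ev1_one : ∀ p : P1, ev1 1 p = ((p.sum : ℤ) : ℝ)
  | [] => by simp [ev1_nil]
  | a :: p => by
    rw [ev1_cons, ev1_one p, List.sum_cons]; push_cast; ring

lemma ev3_kinD (v : ℝ) (p : P1) : ∀ l : List (ℕ × P1),
    ev3 v v 1 (kin p l) = ev1 v (kinD p l)
  | [] => by simp [kin, kinD, ev3_nil, ev1_nil]
  | q :: r => by
    simp only [kin, kinD, ev3_add, ev1_add, ev3_kinD v p r, ev3_smul, ev1_smul, ev3_tens, ev1_mul,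
      ev1_one]
    push_cast
    ring

lemma ev3_kdiag (v : ℝ) : ∀ l : List (P1 × List (ℕ × P1)),
    ev3 v v 1 (kpoly l) = ev1 v (kdiag l)
  | [] => by simp [kpoly, kdiag, ev3_nil, ev1_nil]
  | q :: r => by
    simp only [kpoly, kdiag, ev3_add, ev1_add, ev3_kdiag v r, ev3_kinD]

lemma kin_psd (n : ℕ) (p : P1) (hp : PosDef n p) {ι : Type} (s : Finset ι)
    (x : ι → Fin n → ℝ) (hx : ∀ i ∈ s, ∑ t, x i t * x i t = 1) (v : ι → ℝ) :
    ∀ l : List (ℕ × P1),
    0 ≤ ∑ i ∈ s, ∑ j ∈ s, ev3 (v i) (v j) (∑ t, x i t * x j t) (kin p l)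
  | [] => by simp [kin, ev3_nil]
  | q :: r => by
    have ih := kin_psd n p hp s x hx v r
    have h := hp ι s x hx (fun i => ev1 (v i) q.2)
    have e : ∑ i ∈ s, ∑ j ∈ s, ev3 (v i) (v j) (∑ t, x i t * x j t) (kin p (q :: r)) =
        (q.1 : ℝ) * (∑ i ∈ s, ∑ j ∈ s, ev1 (v i) q.2 * ev1 (v j) q.2 *
          ev1 (∑ t, x i t * x j t) p) +
        ∑ i ∈ s, ∑ j ∈ s, ev3 (v i) (v j) (∑ t, x i t * x j t) (kin p r) := by
      rw [Finset.mul_sum, ← Finset.sum_add_distrib]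
      apply Finset.sum_congr rfl
      intro i _
      rw [Finset.mul_sum, ← Finset.sum_add_distrib]
      apply Finset.sum_congr rfl
      intro j _
      simp only [kin, ev3_add, ev3_smul, ev3_tens]
      push_cast
      ring
    rw [e]
    positivity

lemma kpoly_psd (n : ℕ) {ι : Type} (s : Finset ι)
    (x : ι → Fin n → ℝ) (hx : ∀ i ∈ s, ∑ t, x i t * x i t = 1) (v : ι → ℝ) :
    ∀ l : List (P1 × List (ℕ × P1)), (l.all (fun q => isGeg n q.1) = true) →
    0 ≤ ∑ i ∈ s, ∑ j ∈ s, ev3 (v i) (v j) (∑ t, x i t * x j t) (kpoly l)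
  | [], _ => by simp [kpoly, ev3_nil]
  | q :: r, h => by
    simp only [List.all_cons, Bool.and_eq_true] at h
    have ih := kpoly_psd n s x hx v r h.2
    have h2 := kin_psd n q.1 (posDef_of_isGeg n q.1 h.1) s x hx v q.2
    have e : ∑ i ∈ s, ∑ j ∈ s, ev3 (v i) (v j) (∑ t, x i t * x j t) (kpoly (q :: r)) =
        (∑ i ∈ s, ∑ j ∈ s, ev3 (v i) (v j) (∑ t, x i t * x j t) (kin q.1 q.2)) +
        ∑ i ∈ s, ∑ j ∈ s, ev3 (v i) (v j) (∑ t, x i t * x j t) (kpoly r) := by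
      rw [← Finset.sum_add_distrib]
      apply Finset.sum_congr rfl
      intro i _
      rw [← Finset.sum_add_distrib]
      apply Finset.sum_congr rfl
      intro j _
      simp only [kpoly, ev3_add]
    rw [e]
    positivity

/-- the basic inequality -/
theorem lp_main (n : ℕ) (W : P1) (d D : ℝ)
    (terms : List (P1 × List (ℕ × P1))) (hg : terms.all (fun q => isGeg n q.1) = true)
    {ι : Type} (s : Finset ι) (x : ι → Fin n → ℝ) (hx : ∀ i ∈ s, ∑ t, x i t * x i t = 1)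
    (v : ι → ℝ)
    (hneg : ∀ i ∈ s, ∀ j ∈ s, i ≠ j → d * (ev1 (v i) W * ev1 (v j) W) +
      ev3 (v i) (v j) (∑ t, x i t * x j t) (kpoly terms) ≤ 0)
    (hdiag : ∀ i ∈ s, d * (ev1 (v i) W * ev1 (v i) W) + ev1 (v i) (kdiag terms) ≤
      D * ev1 (v i) W)
    (hpos : 0 < ∑ i ∈ s, ev1 (v i) W) : d * ∑ i ∈ s, ev1 (v i) W ≤ D := by
  classical
  have h1 := kpoly_psd n s x hx v terms hg
  have h2 : d * ((∑ i ∈ s, ev1 (v i) W) * ∑ i ∈ s, ev1 (v i) W) +
      ∑ i ∈ s, ∑ j ∈ s, ev3 (v i) (v j) (∑ t, x i t * x j t) (kpoly terms) =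
      ∑ i ∈ s, ∑ j ∈ s, (d * (ev1 (v i) W * ev1 (v j) W) +
      ev3 (v i) (v j) (∑ t, x i t * x j t) (kpoly terms)) := by
    rw [Finset.sum_mul_sum, Finset.mul_sum, ← Finset.sum_add_distrib]
    apply Finset.sum_congr rfl
    intro i _
    rw [Finset.mul_sum, ← Finset.sum_add_distrib]
  have h3 : ∑ i ∈ s, ∑ j ∈ s, (d * (ev1 (v i) W * ev1 (v j) W) +
      ev3 (v i) (v j) (∑ t, x i t * x j t) (kpoly terms)) ≤ ∑ i ∈ s, D * ev1 (v i) W := by
    apply Finset.sum_le_sum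
    intro i hi
    have h4 : ∑ j ∈ s, (d * (ev1 (v i) W * ev1 (v j) W) +
        ev3 (v i) (v j) (∑ t, x i t * x j t) (kpoly terms)) ≤
        ∑ j ∈ s, (if j = i then D * ev1 (v i) W else 0) := by
      apply Finset.sum_le_sum
      intro j hj
      split_ifs with hij
      · subst hij
        rw [hx j hj, ev3_kdiag]
        exact hdiag j hj
      · exact hneg i hi j hj (fun h => hij h.symm)
    refine le_trans h4 (le_of_eq ?_)
    rw [Finset.sum_ite_eq' s i]
    simp [hi]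
  rw [← h2, ← Finset.mul_sum] at h3
  have h5 : (d * ∑ i ∈ s, ev1 (v i) W) * (∑ i ∈ s, ev1 (v i) W) ≤
      D * ∑ i ∈ s, ev1 (v i) W := by
    rw [mul_assoc]; linarith
  exact le_of_mul_le_mul_right h5 hpos

end Pool.Agent.H104.AKN
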