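import Mathlib

/-!
# Polynomials in three variables as nested lists of integers, and a checker for certificates of
nonnegativity by sums of squares
-/

namespace Pool.Agent.H104.AKN

section Generic

variable {α : Type}

/-- value of a list of coefficients at `x`, the coefficients being evaluated by `f` -/
def lev (f : α → ℝ) (x : ℝ) : List α → ℝ
  | [] => 0
  | a :: l => f a + x * lev f x l

/-- sum of lists of coefficients -/
def ladd (add : α → α → α) : List α → List α → List α
  | [], m => m
  | a :: l, [] => a :: l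
  | a :: l, b :: m => add a b :: ladd add l m

/-- product of lists of coefficients -/
def lmul (isz : α → Bool) (add mul : α → α → α) (zero : α) : List α → List α → List α
  | [], _ => []
  | a :: l, m =>
    if isz a then zero :: lmul isz add mul zero l m
    else ladd add (m.map (mul a)) (zero :: lmul isz add mul zero l m)

lemma lev_ladd (f : α → ℝ) (x : ℝ) (add : α → α → α) (h : ∀ a b, f (add a b) = f a + f b) :
    ∀ l m : List α, lev f x (ladd add l m) = lev f x l + lev f x m
  | [], m => by simp [ladd, lev]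
  | a :: l, [] => by simp [ladd, lev]
  | a :: l, b :: m => by
    simp only [ladd, lev, h, lev_ladd f x add h l m]; ring

lemma lev_map (f : α → ℝ) (x : ℝ) (g : α → α) (c : ℝ) (h : ∀ a, f (g a) = c * f a) :
    ∀ l : List α, lev f x (l.map g) = c * lev f x l
  | [] => by simp [lev]
  | a :: l => by
    simp only [List.map_cons, lev, h, lev_map f x g c h l]; ring

lemma lev_lmul (f : α → ℝ) (x : ℝ) (isz : α → Bool) (add mul : α → α → α) (zero : α)
    (hz : ∀ a, isz a = true → f a = 0) (h0 : f zero = 0)
    (ha : ∀ a b, f (add a b) = f a + f b) (hm : ∀ a b, f (mul a b) = f a * f b) :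
    ∀ l m : List α, lev f x (lmul isz add mul zero l m) = lev f x l * lev f x m
  | [], m => by simp [lmul, lev]
  | a :: l, m => by
    by_cases h : isz a = true
    · simp only [lmul, h, if_true, lev, h0, hz a h,
        lev_lmul f x isz add mul zero hz h0 ha hm l m]; ring
    · simp only [lmul, h, lev, Bool.false_eq_true, if_false]
      rw [lev_ladd f x add ha, lev_map f x (mul a) (f a) (fun b => hm a b)]
      simp only [lev, h0, lev_lmul f x isz add mul zero hz h0 ha hm l m]; ring

lemma lev_all_zero (f : α → ℝ) (x : ℝ) (isz : α → Bool) (hz : ∀ a, isz a = true → f a = 0) :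
    ∀ l : List α, l.all isz = true → lev f x l = 0
  | [], _ => rfl
  | a :: l, h => by
    simp only [List.all_cons, Bool.and_eq_true] at h
    simp only [lev, hz a h.1, lev_all_zero f x isz hz l h.2]; ring

end Generic

/-- polynomials in `t` -/
abbrev P1 := List ℤ
/-- polynomials in `w, t` -/
abbrev P2 := List P1
/-- polynomials in `v, w, t` -/
abbrev P3 := List P2

def isz0 (a : ℤ) : Bool := a == 0
def isz1 (p : P1) : Bool := p.all isz0
def isz2 (p : P2) : Bool := p.all isz1
def isz3 (p : P3) : Bool := p.all isz2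

def add1 : P1 → P1 → P1 := ladd (fun a b : ℤ => a + b)
def add2 : P2 → P2 → P2 := ladd add1
def add3 : P3 → P3 → P3 := ladd add2

def mul1 : P1 → P1 → P1 := lmul isz0 (fun a b : ℤ => a + b) (fun a b : ℤ => a * b) 0
def mul2 : P2 → P2 → P2 := lmul isz1 add1 mul1 []
def mul3 : P3 → P3 → P3 := lmul isz2 add2 mul2 []

def smul1 (c : ℤ) (p : P1) : P1 := p.map (fun a => c * a)
def smul2 (c : ℤ) (p : P2) : P2 := p.map (smul1 c)
def smul3 (c : ℤ) (p : P3) : P3 := p.map (smul2 c)

/-- value of an integer -/
def ev0 (a : ℤ) : ℝ := (a : ℝ)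
/-- value of a polynomial in one variable -/
def ev1 (t : ℝ) : P1 → ℝ := lev ev0 t
/-- value of a polynomial in two variables -/
def ev2 (w t : ℝ) : P2 → ℝ := lev (ev1 t) w
/-- value of a polynomial in three variables -/
def ev3 (v w t : ℝ) : P3 → ℝ := lev (ev2 w t) v

lemma ev0_isz (a : ℤ) (h : isz0 a = true) : ev0 a = 0 := by
  simp only [isz0, beq_iff_eq] at h
  simp [ev0, h]

lemma ev1_isz (t : ℝ) (p : P1) (h : isz1 p = true) : ev1 t p = 0 :=
  lev_all_zero _ _ isz0 ev0_isz p h

lemma ev2_isz (w t : ℝ) (p : P2) (h : isz2 p = true) : ev2 w t p = 0 :=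
  lev_all_zero _ _ isz1 (ev1_isz t) p h

lemma ev3_isz (v w t : ℝ) (p : P3) (h : isz3 p = true) : ev3 v w t p = 0 :=
  lev_all_zero _ _ isz2 (ev2_isz w t) p h

lemma ev1_add (t : ℝ) (p q : P1) : ev1 t (add1 p q) = ev1 t p + ev1 t q :=
  lev_ladd _ _ _ (fun a b => by simp [ev0]) p q

lemma ev2_add (w t : ℝ) (p q : P2) : ev2 w t (add2 p q) = ev2 w t p + ev2 w t q :=
  lev_ladd _ _ _ (ev1_add t) p q

lemma ev3_add (v w t : ℝ) (p q : P3) : ev3 v w t (add3 p q) = ev3 v w t p + ev3 v w t q :=
  lev_ladd _ _ _ (ev2_add w t) p q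

lemma ev1_mul (t : ℝ) (p q : P1) : ev1 t (mul1 p q) = ev1 t p * ev1 t q :=
  lev_lmul _ _ _ _ _ _ ev0_isz (by simp [ev0]) (fun a b => by simp [ev0])
    (fun a b => by simp [ev0]) p q

lemma ev2_mul (w t : ℝ) (p q : P2) : ev2 w t (mul2 p q) = ev2 w t p * ev2 w t q :=
  lev_lmul _ _ _ _ _ _ (ev1_isz t) (by simp [ev1, lev]) (ev1_add t) (ev1_mul t) p q

lemma ev3_mul (v w t : ℝ) (p q : P3) : ev3 v w t (mul3 p q) = ev3 v w t p * ev3 v w t q :=
  lev_lmul _ _ _ _ _ _ (ev2_isz w t) (by simp [ev2, lev]) (ev2_add w t) (ev2_mul w t) p q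

lemma ev1_smul (t : ℝ) (c : ℤ) (p : P1) : ev1 t (smul1 c p) = c * ev1 t p :=
  lev_map _ _ _ _ (fun a => by simp [ev0]) p

lemma ev2_smul (w t : ℝ) (c : ℤ) (p : P2) : ev2 w t (smul2 c p) = c * ev2 w t p :=
  lev_map _ _ _ _ (ev1_smul t c) p

lemma ev3_smul (v w t : ℝ) (c : ℤ) (p : P3) : ev3 v w t (smul3 c p) = c * ev3 v w t p :=
  lev_map _ _ _ _ (ev2_smul w t c) p

/-- equality of polynomials -/
def eqv1 (p q : P1) : Bool := isz1 (add1 p (smul1 (-1) q))
/-- equality of polynomials -/
def eqv3 (p q : P3) : Bool := isz3 (add3 p (smul3 (-1) q))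

lemma ev1_eqv (t : ℝ) (p q : P1) (h : eqv1 p q = true) : ev1 t p = ev1 t q := by
  have := ev1_isz t _ h
  rw [ev1_add, ev1_smul] at this
  push_cast at this
  linarith

lemma ev3_eqv (v w t : ℝ) (p q : P3) (h : eqv3 p q = true) : ev3 v w t p = ev3 v w t q := by
  have := ev3_isz v w t _ h
  rw [ev3_add, ev3_smul] at this
  push_cast at this
  linarith

/-! ### linear and quadratic forms -/

/-- a linear form -/
def dot : List ℤ → List ℝ → ℝ
  | [], _ => 0
  | _ :: _, [] => 0
  | a :: l, x :: xs => (a : ℝ) * x + dot l xs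

/-- a bilinear form -/
def qf : List (List ℤ) → List ℝ → List ℝ → ℝ
  | [], _, _ => 0
  | _ :: _, _, [] => 0
  | g :: G, x, y :: ys => y * dot g x + qf G x ys

/-- sum of integer matrices -/
def addM : List (List ℤ) → List (List ℤ) → List (List ℤ) := ladd add1
/-- multiple of an integer matrix -/
def smulM (c : ℤ) (G : List (List ℤ)) : List (List ℤ) := G.map (smul1 c)
/-- outer product -/
def outer (m l : List ℤ) : List (List ℤ) := m.map (fun a => smul1 a l)

lemma dot_nil (l : List ℤ) : dot l [] = 0 := by cases l <;> rfl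

lemma qf_nil (G : List (List ℤ)) (x : List ℝ) : qf G x [] = 0 := by cases G <;> rfl

lemma dot_add : ∀ (l m : List ℤ) (x : List ℝ), dot (add1 l m) x = dot l x + dot m x
  | [], m, x => by simp [add1, ladd, dot]
  | a :: l, [], x => by simp [add1, ladd, dot]
  | a :: l, b :: m, [] => by simp [add1, ladd, dot]
  | a :: l, b :: m, x :: xs => by
    have := dot_add l m xs
    simp only [add1] at this
    simp only [add1, ladd, dot, this]
    push_cast
    ring

lemma dot_smul (c : ℤ) : ∀ (l : List ℤ) (x : List ℝ), dot (smul1 c l) x = c * dot l x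
  | [], x => by simp [smul1, dot]
  | a :: l, [] => by simp [smul1, dot]
  | a :: l, x :: xs => by
    have := dot_smul c l xs
    simp only [smul1] at this
    simp only [smul1, List.map_cons, dot, this]
    push_cast
    ring

lemma qf_add : ∀ (G H : List (List ℤ)) (x y : List ℝ), qf (addM G H) x y = qf G x y + qf H x y
  | [], H, x, y => by simp [addM, ladd, qf]
  | g :: G, [], x, y => by simp [addM, ladd, qf]
  | g :: G, h :: H, x, [] => by simp [addM, ladd, qf]
  | g :: G, h :: H, x, y :: ys => by
    have := qf_add G H x ys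
    simp only [addM] at this
    simp only [addM, ladd, qf, this, dot_add]
    ring

lemma qf_smul (c : ℤ) : ∀ (G : List (List ℤ)) (x y : List ℝ), qf (smulM c G) x y = c * qf G x y
  | [], x, y => by simp [smulM, qf]
  | g :: G, x, [] => by simp [smulM, qf]
  | g :: G, x, y :: ys => by
    have := qf_smul c G x ys
    simp only [smulM] at this
    simp only [smulM, List.map_cons, qf, this, dot_smul]
    ring

lemma qf_outer (l : List ℤ) : ∀ (m : List ℤ) (x y : List ℝ),
    qf (outer m l) x y = dot m y * dot l x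
  | [], x, y => by simp [outer, qf, dot]
  | a :: m, x, [] => by simp [outer, qf, dot]
  | a :: m, x, y :: ys => by
    have := qf_outer l m x ys
    simp only [outer] at this
    simp only [outer, List.map_cons, qf, dot, this, dot_smul]
    ring

/-- matrices with all entries zero -/
def zM (G : List (List ℤ)) : Bool := G.all isz1

lemma dot_zero : ∀ (l : List ℤ) (x : List ℝ), isz1 l = true → dot l x = 0
  | [], x, _ => by simp [dot]
  | a :: l, [], _ => by simp [dot]
  | a :: l, x :: xs, h => by
    simp only [isz1, List.all_cons, Bool.and_eq_true] at h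
    have h1 : a = 0 := by simpa [isz0] using h.1
    simp only [dot, h1, dot_zero l xs h.2]
    simp

lemma qf_zero : ∀ (G : List (List ℤ)) (x y : List ℝ), zM G = true → qf G x y = 0
  | [], x, y, _ => by simp [qf]
  | g :: G, x, [], _ => by simp [qf]
  | g :: G, x, y :: ys, h => by
    simp only [zM, List.all_cons, Bool.and_eq_true] at h
    simp only [qf, dot_zero g x h.1, qf_zero G x ys h.2]
    simp

/-- equality of matrices -/
def eqM (G H : List (List ℤ)) : Bool := zM (addM G (smulM (-1) H))

lemma qf_eqM (G H : List (List ℤ)) (x y : List ℝ) (h : eqM G H = true) :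
    qf G x y = qf H x y := by
  have := qf_zero _ x y h
  rw [qf_add, qf_smul] at this
  push_cast at this
  linarith

/-- weighted sum of outer squares -/
def sumOuter : List (ℕ × List ℤ) → List (List ℤ)
  | [] => []
  | p :: r => addM (outer p.2 (smul1 (p.1 : ℤ) p.2)) (sumOuter r)

lemma qf_sumOuter_nonneg : ∀ (s : List (ℕ × List ℤ)) (x : List ℝ), 0 ≤ qf (sumOuter s) x x
  | [], x => by simp [sumOuter, qf]
  | p :: r, x => by
    have := qf_sumOuter_nonneg r x
    simp only [sumOuter]
    rw [qf_add, qf_outer, dot_smul]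
    have h2 : (0 : ℝ) ≤ dot p.2 x * (((p.1 : ℤ) : ℝ) * dot p.2 x) := by
      have : dot p.2 x * (((p.1 : ℤ) : ℝ) * dot p.2 x) = (p.1 : ℝ) * (dot p.2 x) ^ 2 := by
        push_cast; ring
      rw [this]; positivity
    linarith

/-- unit vector plus `c` times another unit vector -/
def uvec (N i j : ℕ) (c : ℤ) : List ℤ :=
  (List.range N).map (fun k => if k == i then 1 else if k == j then c else 0)

/-- squares for a diagonally dominant matrix -/
def ddsq (N : ℕ) (E : List (List ℤ)) : List (ℕ × List ℤ) :=
  ((List.range N).zip E).flatMap (fun p =>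
    let i := p.1
    let row := p.2
    let offs := (List.range N).zip row
    let tot : ℕ := (offs.map (fun q => if q.1 == i then 0 else q.2.natAbs)).sum
    (((row.getD i 0).toNat - tot), uvec N i i 1) ::
    (offs.filterMap (fun q => if i < q.1 && q.2 != 0 then
      some (q.2.natAbs, uvec N i q.1 (if q.2 < 0 then -1 else 1)) else none)))

/-- checks that `c G` is a sum of squares: rows of `L` and a diagonally dominant rest -/
def checkPSD (c : ℕ) (G L : List (List ℤ)) : Bool :=
  decide (0 < c) &&
  (let s := L.map (fun r => ((1 : ℕ), r))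
   let E := addM (smulM c G) (smulM (-1) (sumOuter s))
   eqM (smulM c G) (sumOuter (s ++ ddsq G.length E)))

lemma qf_nonneg_of_check (c : ℕ) (G L : List (List ℤ)) (h : checkPSD c G L = true) (x : List ℝ) :
    0 ≤ qf G x x := by
  simp only [checkPSD, Bool.and_eq_true, decide_eq_true_eq] at h
  obtain ⟨hc, h⟩ := h
  have h1 := qf_eqM _ _ x x h
  rw [qf_smul] at h1
  have h2 := qf_sumOuter_nonneg (L.map (fun r => ((1 : ℕ), r)) ++ ddsq G.length
    (addM (smulM c G) (smulM (-1) (sumOuter (L.map (fun r => ((1 : ℕ), r))))))) x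
  rw [← h1] at h2
  have hc' : (0 : ℝ) < ((c : ℤ) : ℝ) := by exact_mod_cast hc
  exact nonneg_of_mul_nonneg_right h2 hc'

/-! ### certificates -/

/-- linear combination of polynomials -/
def lin3 : List ℤ → List P3 → P3
  | [], _ => []
  | _ :: _, [] => []
  | a :: l, p :: b => if isz0 a then lin3 l b else add3 (smul3 a p) (lin3 l b)

/-- quadratic form in polynomials -/
def quad3 : List (List ℤ) → List P3 → List P3 → P3
  | [], _, _ => []
  | _ :: _, _, [] => []
  | g :: G, b, p :: c => add3 (mul3 p (lin3 g b)) (quad3 G b c)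

lemma ev3_nil (v w t : ℝ) : ev3 v w t [] = 0 := rfl

lemma ev3_lin3 (v w t : ℝ) : ∀ (l : List ℤ) (b : List P3),
    ev3 v w t (lin3 l b) = dot l (b.map (ev3 v w t))
  | [], b => by simp [lin3, dot, ev3_nil]
  | a :: l, [] => by simp [lin3, dot, ev3_nil]
  | a :: l, p :: b => by
    have ih := ev3_lin3 v w t l b
    by_cases h : isz0 a = true
    · have h1 : a = 0 := by simpa [isz0] using h
      rw [lin3, if_pos h, ih, List.map_cons, dot, h1]
      simp
    · rw [lin3, if_neg h, ev3_add, ev3_smul, ih, List.map_cons, dot]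

lemma ev3_quad3 (v w t : ℝ) (b : List P3) : ∀ (G : List (List ℤ)) (c : List P3),
    ev3 v w t (quad3 G b c) = qf G (b.map (ev3 v w t)) (c.map (ev3 v w t))
  | [], c => by simp [quad3, qf, ev3_nil]
  | g :: G, [] => by simp [quad3, qf, ev3_nil]
  | g :: G, p :: c => by
    have ih := ev3_quad3 v w t b G c
    simp only [quad3, List.map_cons, qf, ev3_add, ev3_mul, ih, ev3_lin3]

/-- a block of a certificate: a product of generators, a basis, a Gram matrix, and the data that
show that it is positive semidefinite -/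
structure Block where
  mult : List ℕ
  basis : List P3
  gram : List (List ℤ)
  scale : ℕ
  rows : List (List ℤ)

/-- product of generators -/
def prod3 (gens : List P3) : List ℕ → P3
  | [] => [[[1]]]
  | i :: l => mul3 (gens.getD i []) (prod3 gens l)

lemma ev3_prod3_nonneg (v w t : ℝ) (gens : List P3) (hg : ∀ g ∈ gens, 0 ≤ ev3 v w t g) :
    ∀ l : List ℕ, 0 ≤ ev3 v w t (prod3 gens l)
  | [] => by simp [prod3, ev3, ev2, ev1, ev0, lev]
  | i :: l => by
    have ih := ev3_prod3_nonneg v w t gens hg l
    simp only [prod3, ev3_mul]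
    refine mul_nonneg ?_ ih
    by_cases h : i < gens.length
    · rw [List.getD_eq_getElem _ _ h]
      exact hg _ (List.getElem_mem h)
    · rw [List.getD_eq_default _ _ (by omega)]
      simp [ev3_nil]

/-- the polynomial of a block -/
def blockPoly (gens : List P3) (B : Block) : P3 :=
  mul3 (prod3 gens B.mult) (quad3 B.gram B.basis B.basis)

/-- the sum of the blocks -/
def sumBlocks (gens : List P3) : List Block → P3
  | [] => []
  | B :: r => add3 (blockPoly gens B) (sumBlocks gens r)

/-- the checks of the Gram matrices -/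
def checkBlocks (bs : List Block) : Bool := bs.all (fun B => checkPSD B.scale B.gram B.rows)

lemma sumBlocks_nonneg (v w t : ℝ) (gens : List P3) (hg : ∀ g ∈ gens, 0 ≤ ev3 v w t g) :
    ∀ bs : List Block, checkBlocks bs = true → 0 ≤ ev3 v w t (sumBlocks gens bs)
  | [], _ => by simp [sumBlocks, ev3_nil]
  | B :: r, h => by
    simp only [checkBlocks, List.all_cons, Bool.and_eq_true] at h
    have ih := sumBlocks_nonneg v w t gens hg r h.2
    simp only [sumBlocks, ev3_add, blockPoly, ev3_mul, ev3_quad3]
    have h1 := ev3_prod3_nonneg v w t gens hg B.mult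
    have h2 := qf_nonneg_of_check _ _ _ h.1 (B.basis.map (ev3 v w t))
    have := mul_nonneg h1 h2
    linarith

/-- soundness of certificates: `N target = sum of the blocks` -/
theorem cert_sound (gens : List P3) (bs : List Block) (N : ℕ) (target : P3) (hN : 0 < N)
    (h1 : checkBlocks bs = true) (h2 : eqv3 (smul3 N target) (sumBlocks gens bs) = true)
    (v w t : ℝ) (hg : ∀ g ∈ gens, 0 ≤ ev3 v w t g) : 0 ≤ ev3 v w t target := by
  have h3 := sumBlocks_nonneg v w t gens hg bs h1
  rw [← ev3_eqv v w t _ _ h2, ev3_smul] at h3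
  have hN' : (0 : ℝ) < ((N : ℤ) : ℝ) := by exact_mod_cast hN
  exact nonneg_of_mul_nonneg_right h3 hN'

end Pool.Agent.H104.AKN
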