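import Pool.Agent.H104.AKN.PackBound

/-!
# Packings from finite sets of integer points
-/

namespace Pool.Agent.H104.AKN

open Finset Metric

/-- an integer point -/
noncomputable def pt {d : ℕ} (z : Fin d → ℤ) : EuclideanSpace ℝ (Fin d) :=
  WithLp.toLp 2 (fun i => (z i : ℝ))

lemma sqdist_pt {d : ℕ} (z z' : Fin d → ℤ) :
    dist (pt z) (pt z') ^ 2 = ((∑ i, (z i - z' i) * (z i - z' i) : ℤ) : ℝ) := by
  rw [sqdist_sum]
  push_cast
  apply Finset.sum_congr rfl
  intro i _
  simp only [pt]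
  ring

/-- packing of equal balls around integer points with squared minimal distance `4 r^2 = m` -/
lemma exists_packing {d : ℕ} (S : Finset (Fin d → ℤ)) (hS : S.Nonempty) (m : ℕ) (hm : 0 < m)
    (hsep : ∀ z ∈ S, ∀ z' ∈ S, z ≠ z' → (m : ℤ) ≤ ∑ i, (z i - z' i) * (z i - z' i))
    (I : Finset (Fin d → ℤ)) (hI : I ⊆ S) (k : ℕ)
    (hk : ∀ z ∈ I, ∃ R : Finset (Fin d → ℤ), R ⊆ S ∧ k ≤ R.card ∧
      ∀ z' ∈ R, ∑ i, (z i - z' i) * (z i - z' i) = (m : ℤ)) :
    ∃ P : Packing d, (k : ℝ) * I.card / S.card ≤ P.avg := by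
  classical
  have hm' : (0 : ℝ) < m := by exact_mod_cast hm
  set r : ℝ := Real.sqrt m / 2 with hr
  have hr0 : 0 < r := by rw [hr]; positivity
  have hr2 : (r + r) ^ 2 = m := by
    rw [hr]
    have := Real.sq_sqrt hm'.le
    nlinarith
  let e := S.equivFin
  have hdist : ∀ z z' : Fin d → ℤ, (m : ℤ) ≤ ∑ i, (z i - z' i) * (z i - z' i) →
      r + r ≤ dist (pt z) (pt z') := by
    intro z z' h
    apply le_of_sq_le_sq _ dist_nonneg
    rw [hr2, sqdist_pt]
    exact_mod_cast h
  have hdist2 : ∀ z z' : Fin d → ℤ, ∑ i, (z i - z' i) * (z i - z' i) = (m : ℤ) →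
      dist (pt z) (pt z') = r + r := by
    intro z z' h
    apply le_antisymm
    · apply le_of_sq_le_sq _ (by positivity)
      rw [hr2, sqdist_pt, h]
      simp
    · exact hdist z z' h.ge
  let P : Packing d :=
    { N := S.card
      one_le := hS.card_pos
      center := fun i => pt ((e.symm i : S) : Fin d → ℤ)
      radius := fun _ => r
      radius_pos := fun _ => hr0
      disjoint_interiors := by
        intro i j hij
        apply disjoint_of_dist_ge _ _ _ _ hr0 hr0
        apply hdist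
        apply hsep _ (e.symm i).2 _ (e.symm j).2
        intro h
        exact hij (e.symm.injective (Subtype.ext h)) }
  refine ⟨P, ?_⟩
  rw [avg_eq P]
  have hN : (0 : ℝ) < (S.card : ℝ) := by exact_mod_cast hS.card_pos
  have hPN : (P.N : ℝ) = S.card := rfl
  rw [hPN]
  gcongr
  have e1 : ∑ i : Fin P.N, ∑ j : Fin P.N, (if i ≠ j ∧ dist (P.center i) (P.center j) =
      P.radius i + P.radius j then (1 : ℝ) else 0) =
      ∑ z ∈ S, ∑ z' ∈ S, (if z ≠ z' ∧ dist (pt z) (pt z') = r + r then (1 : ℝ) else 0) := by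
    rw [← Finset.sum_coe_sort S, ← Equiv.sum_comp e.symm]
    apply Finset.sum_congr rfl
    intro i _
    rw [← Finset.sum_coe_sort S, ← Equiv.sum_comp e.symm]
    apply Finset.sum_congr rfl
    intro j _
    have h1 : (i ≠ j ∧ dist (P.center i) (P.center j) = P.radius i + P.radius j) ↔
        (((e.symm i : S) : Fin d → ℤ) ≠ ((e.symm j : S) : Fin d → ℤ) ∧
        dist (pt ((e.symm i : S) : Fin d → ℤ)) (pt ((e.symm j : S) : Fin d → ℤ)) = r + r) := by
      have : i ≠ j ↔ ((e.symm i : S) : Fin d → ℤ) ≠ ((e.symm j : S) : Fin d → ℤ) := by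
        rw [Ne, Ne, not_iff_not]
        constructor
        · intro h; rw [h]
        · intro h; exact e.symm.injective (Subtype.ext h)
      rw [this]
    by_cases h : i ≠ j ∧ dist (P.center i) (P.center j) = P.radius i + P.radius j
    · rw [if_pos h, if_pos (h1.mp h)]
    · rw [if_neg h, if_neg (fun h' => h (h1.mpr h'))]
  rw [e1]
  have e2 : ∀ z ∈ I, (k : ℝ) ≤ ∑ z' ∈ S, (if z ≠ z' ∧ dist (pt z) (pt z') = r + r then (1 : ℝ)
      else 0) := by
    intro z hz
    obtain ⟨R, hR1, hR2, hR3⟩ := hk z hz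
    rw [Finset.sum_boole]
    have : R ⊆ S.filter (fun z' => z ≠ z' ∧ dist (pt z) (pt z') = r + r) := by
      intro z' hz'
      rw [Finset.mem_filter]
      refine ⟨hR1 hz', ?_, hdist2 z z' (hR3 z' hz')⟩
      rintro rfl
      have := hR3 z hz'
      simp at this
      omega
    exact_mod_cast hR2.trans (Finset.card_le_card this)
  calc (k : ℝ) * I.card = ∑ _z ∈ I, (k : ℝ) := by
        rw [Finset.sum_const, nsmul_eq_mul, mul_comm]
    _ ≤ ∑ z ∈ I, ∑ z' ∈ S, (if z ≠ z' ∧ dist (pt z) (pt z') = r + r then (1 : ℝ) else 0) :=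
        Finset.sum_le_sum e2
    _ ≤ _ := Finset.sum_le_sum_of_subset_of_nonneg hI (fun z _ _ =>
        Finset.sum_nonneg fun z' _ => by split_ifs <;> norm_num)

end Pool.Agent.H104.AKN
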