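import Pool.Agent.H104.AKN.Cert
import Pool.Agent.H104.AKN.Defs

/-!
# Upper bounds for average kissing numbers and kissing numbers from certificates
-/

namespace Pool.Agent.H104.AKN

open Finset Metric

lemma dist_ge_of_disjoint {d : ℕ} (x y : EuclideanSpace ℝ (Fin d)) (r s : ℝ) (hr : 0 < r)
    (hs : 0 < s)
    (h : Disjoint (interior (closedBall x r)) (interior (closedBall y s))) : r + s ≤ dist x y := by
  rw [interior_closedBall x hr.ne', interior_closedBall y hs.ne'] at h
  exact (disjoint_ball_ball_iff hr hs).mp h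

lemma disjoint_of_dist_ge {d : ℕ} (x y : EuclideanSpace ℝ (Fin d)) (r s : ℝ) (hr : 0 < r)
    (hs : 0 < s) (h : r + s ≤ dist x y) :
    Disjoint (interior (closedBall x r)) (interior (closedBall y s)) := by
  rw [interior_closedBall x hr.ne', interior_closedBall y hs.ne']
  exact (disjoint_ball_ball_iff hr hs).mpr h

lemma sqdist_sum {d : ℕ} (x y : EuclideanSpace ℝ (Fin d)) :
    dist x y ^ 2 = ∑ t, (x t - y t) ^ 2 := by
  rw [EuclideanSpace.dist_eq, Real.sq_sqrt (Finset.sum_nonneg fun t _ => by positivity)]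
  apply Finset.sum_congr rfl
  intro t _
  rw [Real.dist_eq, sq_abs]

/-- directions of two balls touching a third one -/
lemma direction_bound {d : ℕ} (o x y : EuclideanSpace ℝ (Fin d)) (r a b : ℝ) (hr : 0 < r)
    (ha : 0 < a) (hb : 0 < b) (hx : dist o x = r + a) (hy : dist o y = r + b)
    (hxy : a + b ≤ dist x y) :
    ∑ t, ((x t - o t) / (r + a)) * ((y t - o t) / (r + b)) ≤
      1 - 2 * (a / (r + a) * (b / (r + b))) := by
  have h1 : ∑ t, (o t - x t) ^ 2 = (r + a) ^ 2 := by rw [← sqdist_sum, hx]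
  have h2 : ∑ t, (o t - y t) ^ 2 = (r + b) ^ 2 := by rw [← sqdist_sum, hy]
  have h3 : (a + b) ^ 2 ≤ ∑ t, (x t - y t) ^ 2 := by
    rw [← sqdist_sum]; gcongr
  have h4 : ∑ t, (x t - y t) ^ 2 = ∑ t, (o t - x t) ^ 2 + ∑ t, (o t - y t) ^ 2 -
      2 * ∑ t, (x t - o t) * (y t - o t) := by
    rw [Finset.mul_sum, ← Finset.sum_add_distrib, ← Finset.sum_sub_distrib]
    apply Finset.sum_congr rfl
    intro t _
    ring
  have h5 : ∑ t, ((x t - o t) / (r + a)) * ((y t - o t) / (r + b)) =
      (∑ t, (x t - o t) * (y t - o t)) / ((r + a) * (r + b)) := by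
    rw [Finset.sum_div]
    apply Finset.sum_congr rfl
    intro t _
    field_simp
  have h6 : 1 - 2 * (a / (r + a) * (b / (r + b))) =
      ((r + a) * (r + b) - 2 * (a * b)) / ((r + a) * (r + b)) := by
    field_simp
  rw [h5, h6]
  have h7 : (0 : ℝ) < (r + a) * (r + b) := by positivity
  gcongr
  nlinarith

variable (c : Cert) (h0 : c.ok0 = true) (h1 : c.ok1 = true) (h1' : checkBlocks c.blocks = true)
  (h2 : c.ok2 = true) (h2' : checkBlocks c.dblocks = true)

include h0 h1 h1' h2 h2' in
/-- the bound for ordered pairs of tangent balls -/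
theorem Cert.pairs_le (hn : c.n ≠ 0) (P : Packing c.n) :
    ∑ i, ∑ j, (if i ≠ j ∧ dist (P.center i) (P.center j) = P.radius i + P.radius j then (1 : ℝ)
      else 0) ≤ (c.Kn : ℝ) / c.Kd * P.N := by
  classical
  set T : Fin P.N → Fin P.N → Prop := fun i j =>
    i ≠ j ∧ dist (P.center i) (P.center j) = P.radius i + P.radius j with hT
  have hsymm : ∀ i j, T i j → T j i := fun i j h => ⟨h.1.symm, by rw [dist_comm, h.2, add_comm]⟩
  set σ : Fin P.N → Fin P.N → ℝ := fun i j => P.radius j / (P.radius i + P.radius j) with hσ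
  have hone : ∀ i j, σ j i = 1 - σ i j := by
    intro i j
    have h1 := P.radius_pos i
    have h2 := P.radius_pos j
    have h3 : P.radius i + P.radius j ≠ 0 := by positivity
    simp only [hσ]
    rw [add_comm (P.radius j), eq_sub_iff_add_eq, ← add_div, div_self h3]
  have hb : ∀ i, ∑ j ∈ univ.filter (fun j => T i j), c.om (σ i j) ≤ (c.Kn : ℝ) / c.Kd := by
    intro i
    refine c.bound h0 h1 h1' h2 h2' hn (univ.filter (fun j => T i j))
      (fun j t => (P.center j t - P.center i t) / (P.radius i + P.radius j)) ?_ (σ i) ?_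
    · intro j hj
      rw [Finset.mem_filter] at hj
      have h3 : 0 < P.radius i + P.radius j := add_pos (P.radius_pos i) (P.radius_pos j)
      have h4 : ∑ t, (P.center i t - P.center j t) ^ 2 = (P.radius i + P.radius j) ^ 2 := by
        rw [← sqdist_sum, hj.2.2]
      have h5 : ∑ t, (P.center j t - P.center i t) / (P.radius i + P.radius j) *
          ((P.center j t - P.center i t) / (P.radius i + P.radius j)) =
          (∑ t, (P.center i t - P.center j t) ^ 2) / (P.radius i + P.radius j) ^ 2 := by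
        rw [Finset.sum_div]
        apply Finset.sum_congr rfl
        intro t _
        field_simp
        ring
      rw [h5, h4, div_self (by positivity)]
    · intro j hj k hk hjk
      rw [Finset.mem_filter] at hj hk
      exact direction_bound (P.center i) (P.center j) (P.center k) (P.radius i) (P.radius j)
        (P.radius k) (P.radius_pos i) (P.radius_pos j) (P.radius_pos k) hj.2.2 hk.2.2
        (dist_ge_of_disjoint _ _ _ _ (P.radius_pos j) (P.radius_pos k)
          (P.disjoint_interiors j k hjk))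
  have hWn := c.W_nonneg h0 h2 h2' hn
  have e1 : ∑ i, ∑ j, (if T i j then c.om (σ i j) else 0) ≤ (c.Kn : ℝ) / c.Kd * P.N := by
    calc ∑ i, ∑ j, (if T i j then c.om (σ i j) else 0)
        ≤ ∑ _i : Fin P.N, (c.Kn : ℝ) / c.Kd := by
          apply Finset.sum_le_sum
          intro i _
          rw [← Finset.sum_filter]
          exact hb i
      _ = (c.Kn : ℝ) / c.Kd * P.N := by
          rw [Finset.sum_const, Finset.card_univ, Fintype.card_fin, nsmul_eq_mul, mul_comm]
  have e2 : ∑ i, ∑ j, (if T i j then c.om (σ j i) else 0) =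
      ∑ i, ∑ j, (if T i j then c.om (σ i j) else 0) := by
    rw [Finset.sum_comm]
    apply Finset.sum_congr rfl
    intro i _
    apply Finset.sum_congr rfl
    intro j _
    by_cases h : T i j
    · rw [if_pos h, if_pos (hsymm i j h)]
    · rw [if_neg h, if_neg (fun h' => h (hsymm j i h'))]
  have e3 : 2 * ∑ i, ∑ j, (if T i j then (1 : ℝ) else 0) ≤
      ∑ i, ∑ j, (if T i j then c.om (σ i j) else 0) +
      ∑ i, ∑ j, (if T i j then c.om (σ j i) else 0) := by
    rw [Finset.mul_sum, ← Finset.sum_add_distrib]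
    apply Finset.sum_le_sum
    intro i _
    rw [Finset.mul_sum, ← Finset.sum_add_distrib]
    apply Finset.sum_le_sum
    intro j _
    split_ifs with h
    · rw [hone i j, mul_one]
      exact c.om_add h0 hWn (σ i j)
    · simp
  rw [e2] at e3
  have e4 : ∑ i, ∑ j, (if i ≠ j ∧ dist (P.center i) (P.center j) = P.radius i + P.radius j
      then (1 : ℝ) else 0) = ∑ i, ∑ j, (if T i j then (1 : ℝ) else 0) := by
    apply Finset.sum_congr rfl
    intro i _
    apply Finset.sum_congr rfl
    intro j _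
    by_cases h : T i j
    · rw [if_pos h]
    · rw [if_neg h]
  rw [e4]
  linarith

/-- twice the number of edges -/
lemma two_mul_edges {N : ℕ} (G : SimpleGraph (Fin N)) [DecidableRel G.Adj] :
    2 * (G.edgeSet.ncard : ℝ) = ∑ i, ∑ j, (if G.Adj i j then (1 : ℝ) else 0) := by
  classical
  have h1 : G.edgeSet.ncard = G.edgeFinset.card := by
    rw [← SimpleGraph.coe_edgeFinset, Set.ncard_coe_finset]
  rw [h1]
  have h2 := G.sum_degrees_eq_twice_card_edges
  have h3 : (2 : ℝ) * (G.edgeFinset.card : ℝ) = ((∑ v, G.degree v : ℕ) : ℝ) := by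
    rw [h2]; push_cast; ring
  rw [h3, Nat.cast_sum]
  apply Finset.sum_congr rfl
  intro i _
  rw [← SimpleGraph.card_neighborFinset_eq_degree, SimpleGraph.neighborFinset_eq_filter,
    Finset.card_filter]
  push_cast
  rfl

lemma avg_eq {d : ℕ} (P : Packing d) :
    P.avg = (∑ i, ∑ j, (if i ≠ j ∧ dist (P.center i) (P.center j) = P.radius i + P.radius j
      then (1 : ℝ) else 0)) / P.N := by
  classical
  rw [Packing.avg, two_mul_edges P.contactGraph]
  congr 1
  apply Finset.sum_congr rfl
  intro i _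
  apply Finset.sum_congr rfl
  intro j _
  by_cases h : P.contactGraph.Adj i j
  · have h' : i ≠ j ∧ dist (P.center i) (P.center j) = P.radius i + P.radius j := h
    rw [if_pos h, if_pos h']
  · have h' : ¬ (i ≠ j ∧ dist (P.center i) (P.center j) = P.radius i + P.radius j) := h
    rw [if_neg h, if_neg h']

include h0 h1 h1' h2 h2' in
/-- **upper bound for the average kissing number of a packing** -/
theorem Cert.avg_le (hn : c.n ≠ 0) (P : Packing c.n) : P.avg ≤ (c.Kn : ℝ) / c.Kd := by
  have hN : (0 : ℝ) < P.N := by exact_mod_cast P.one_le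
  rw [avg_eq, div_le_iff₀ hN]
  exact c.pairs_le h0 h1 h1' h2 h2' hn P

lemma Cert.om_half (h0 : c.ok0 = true) : c.om (1 / 2) = 1 := by
  simp only [Cert.ok0, Bool.and_eq_true, decide_eq_true_eq] at h0
  have hB : (0 : ℝ) < c.B := by exact_mod_cast h0.1.1.1.1.1.1.1.1.1.1
  have hW0 : (0 : ℝ) < c.W0 := by exact_mod_cast h0.1.1.1.1.1.1.1.1.2
  unfold Cert.om
  rw [if_neg (by push Not; linarith)]
  have e : (2 * (c.A : ℝ) * (1 / 2) - c.A) / c.B = 0 := by
    rw [div_eq_zero_iff]; left; ring
  rw [e, min_eq_right (by norm_num), ev1_W, div_eq_one_iff_eq hW0.ne']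
  ring

include h0 h1 h1' h2 h2' in
/-- **upper bound for kissing configurations** -/
theorem Cert.kissing_le (hn : c.n ≠ 0) (X : Finset (EuclideanSpace ℝ (Fin c.n)))
    (hX : IsKissing c.n X) : (X.card : ℝ) ≤ (c.Kn : ℝ) / c.Kd := by
  have h := c.bound h0 h1 h1' h2 h2' hn X (fun x t => (x t - (0 : EuclideanSpace ℝ (Fin c.n)) t) /
      ((1 : ℝ) + 1)) ?_ (fun _ => 1 / 2) ?_
  · simp only [c.om_half h0, Finset.sum_const, nsmul_eq_mul, mul_one] at h
    exact h
  · intro x hx
    have h4 : ∑ t, (x t - (0 : EuclideanSpace ℝ (Fin c.n)) t) ^ 2 = (1 + 1) ^ 2 := by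
      rw [← sqdist_sum, hX.1 x hx]
    have h5 : ∑ t, (x t - (0 : EuclideanSpace ℝ (Fin c.n)) t) / ((1 : ℝ) + 1) *
          ((x t - (0 : EuclideanSpace ℝ (Fin c.n)) t) / ((1 : ℝ) + 1)) =
          (∑ t, (x t - (0 : EuclideanSpace ℝ (Fin c.n)) t) ^ 2) / ((1 : ℝ) + 1) ^ 2 := by
        rw [Finset.sum_div]
        apply Finset.sum_congr rfl
        intro t _
        field_simp
    rw [h5, h4, div_self (by norm_num)]
  · intro x hx y hy hxy
    have h6 := direction_bound 0 x y 1 1 1 one_pos one_pos one_pos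
      (by rw [dist_comm]; exact hX.1 x hx) (by rw [dist_comm]; exact hX.1 y hy)
      (dist_ge_of_disjoint _ _ _ _ one_pos one_pos (hX.2 x hx y hy hxy))
    refine le_trans h6 (le_of_eq ?_)
    norm_num

end Pool.Agent.H104.AKN
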